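import Mathlib

/-!
# Rational sphere maps with prescribed finite source group: definitions
-/

open MvPolynomial

namespace Pool.Agent.H24.RSM

/-- Complex Euclidean space of dimension `n`. -/
abbrev E (n : ℕ) := EuclideanSpace ℂ (Fin n)

/-- The open unit ball of `ℂ^n`. -/
def Bn (n : ℕ) : Set (E n) := Metric.ball 0 1

/-- The value of the polynomial `p` at the point `z`. -/
noncomputable def ev {n : ℕ} (z : E n) (p : MvPolynomial (Fin n) ℂ) : ℂ :=
  MvPolynomial.eval (fun i => z i) p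

/-- The unitary matrix `U` acting on `ℂ^n`. -/
noncomputable def act {n : ℕ} (U : Matrix.unitaryGroup (Fin n) ℂ) (z : E n) : E n :=
  WithLp.toLp 2 (Matrix.mulVec (U : Matrix (Fin n) (Fin n) ℂ) (fun i => z i))

/-- `γ` restricts to a holomorphic automorphism of the unit ball (only its values on the ball
matter). -/
def IsBallAut (n : ℕ) (γ : E n → E n) : Prop :=
  DifferentiableOn ℂ γ (Bn n) ∧ Set.MapsTo γ (Bn n) (Bn n) ∧
    ∃ δ : E n → E n, DifferentiableOn ℂ δ (Bn n) ∧ Set.MapsTo δ (Bn n) (Bn n) ∧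
      (∀ z ∈ Bn n, δ (γ z) = z) ∧ ∀ z ∈ Bn n, γ (δ z) = z

/-- Rational sphere maps `f = p / q : ℂ^n → ℂ^N`, in lowest terms. The last field says that `f`
maps the open ball into the open ball; by the maximum principle it only excludes constants of
norm one. -/
structure RatSphereMap (n N : ℕ) where
  /-- the components of the numerator -/
  p : Fin N → MvPolynomial (Fin n) ℂ
  /-- the denominator -/
  q : MvPolynomial (Fin n) ℂ
  q_ne : ∀ z : E n, ‖z‖ ≤ 1 → ev z q ≠ 0
  lowest : ∀ h : MvPolynomial (Fin n) ℂ, (∀ i, h ∣ p i) → h ∣ q → IsUnit h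
  sphere : ∀ z : E n, ‖z‖ = 1 → ∑ i, ‖ev z (p i)‖ ^ 2 = ‖ev z q‖ ^ 2
  ball : ∀ z : E n, ‖z‖ < 1 → ∑ i, ‖ev z (p i)‖ ^ 2 < ‖ev z q‖ ^ 2

/-- The map `z ↦ p(z) / q(z)`. -/
noncomputable def RatSphereMap.toFun {n N : ℕ} (f : RatSphereMap n N) (z : E n) : E N :=
  WithLp.toLp 2 (fun i => ev z (f.p i) / ev z f.q)

/-- The degree `max (deg p) (deg q)`. -/
noncomputable def RatSphereMap.degree {n N : ℕ} (f : RatSphereMap n N) : ℕ :=
  max (Finset.univ.sup fun i => (f.p i).totalDegree) f.q.totalDegree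

/-- The Hermitian source group of `f` is the group `G` of unitary matrices: an automorphism `γ`
of the ball admits an automorphism `ψ` of the target ball with `f ∘ γ = ψ ∘ f` if and only if `γ`
is given by an element of `G`. -/
def HasSourceGroup {n N : ℕ} (f : RatSphereMap n N)
    (G : Subgroup (Matrix.unitaryGroup (Fin n) ℂ)) : Prop :=
  ∀ γ : E n → E n, IsBallAut n γ →
    ((∃ ψ : E N → E N, IsBallAut N ψ ∧ ∀ z ∈ Bn n, f.toFun (γ z) = ψ (f.toFun z)) ↔
      ∃ U ∈ G, ∀ z ∈ Bn n, γ z = act U z)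

/-- Polynomials in `z` and `conj z` of bidegree at most `(e, e)`, as functions on `ℂ^n`. -/
def HermPoly (n e : ℕ) : Submodule ℂ (E n → ℂ) :=
  Submodule.span ℂ {F | ∃ p r : MvPolynomial (Fin n) ℂ, p.totalDegree ≤ e ∧ r.totalDegree ≤ e ∧
    ∀ z, F z = ev z p * (starRingEnd ℂ) (ev z r)}

/-- `G` is determined in `U(n)` by its invariant polynomials in `z, conj z` of bidegree at most
`(e, e)`: every unitary matrix fixing all of them belongs to `G`. -/
def Determines {n : ℕ} (G : Subgroup (Matrix.unitaryGroup (Fin n) ℂ)) (e : ℕ) : Prop :=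
  ∀ U : Matrix.unitaryGroup (Fin n) ℂ,
    (∀ F ∈ HermPoly n e, (∀ g ∈ G, ∀ z, F (act g z) = F z) → ∀ z, F (act U z) = F z) → U ∈ G

end Pool.Agent.H24.RSM
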