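import Pool.Agent.H24.RSM.HP

/-!
# Rational sphere maps: division by `‖z‖² - 1`
-/

open MvPolynomial

namespace Pool.Agent.H24.RSM

lemma infinite_circle : {ζ : ℂ | ‖ζ‖ = 1}.Infinite := by
  have h1 : IsPreconnected (Metric.sphere (0 : ℂ) 1) :=
    isPreconnected_sphere (by rw [Complex.rank_real_complex]; norm_num) 0 1
  have h2 : (Metric.sphere (0 : ℂ) 1).Nontrivial :=
    ⟨1, by simp, -1, by simp, by norm_num⟩
  have h3 := h1.infinite_of_nontrivial h2
  refine h3.mono fun z hz => ?_
  simpa using hz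

/-- a trigonometric sum vanishing on the circle: every weighted sum of its coefficients with
weights depending only on the frequency vanishes -/
lemma fourier (d : ℕ) (c : ℕ → ℕ → ℂ) (f : ℕ → ℂ)
    (h : ∀ ζ : ℂ, ‖ζ‖ = 1 → ∑ j ∈ Finset.range (d + 1), ∑ k ∈ Finset.range (d + 1),
      ζ ^ j * (starRingEnd ℂ) ζ ^ k * c j k = 0) :
    ∑ j ∈ Finset.range (d + 1), ∑ k ∈ Finset.range (d + 1), f (d + j - k) * c j k = 0 := by
  classical
  set P : Polynomial ℂ := ∑ p ∈ Finset.range (d + 1) ×ˢ Finset.range (d + 1),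
    Polynomial.monomial (d + p.1 - p.2) (c p.1 p.2) with hP
  have hP0 : P = 0 := by
    refine Polynomial.eq_zero_of_infinite_isRoot P (infinite_circle.mono fun ζ hζ => ?_)
    have hζ' : ζ * (starRingEnd ℂ) ζ = 1 := by
      rw [Complex.mul_conj, Complex.normSq_eq_norm_sq]
      rw [show ‖ζ‖ = 1 from hζ]; simp
    have h1 := h ζ hζ
    have h2 : Polynomial.eval ζ P = ζ ^ d * ∑ j ∈ Finset.range (d + 1),
        ∑ k ∈ Finset.range (d + 1), ζ ^ j * (starRingEnd ℂ) ζ ^ k * c j k := by
      rw [hP, Polynomial.eval_finsetSum, Finset.sum_product, Finset.mul_sum]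
      refine Finset.sum_congr rfl fun j _ => ?_
      rw [Finset.mul_sum]
      refine Finset.sum_congr rfl fun k hk => ?_
      have hk' : k ≤ d := by simpa [Nat.lt_succ_iff] using hk
      rw [Polynomial.eval_monomial]
      have h3 : ζ ^ d * ζ ^ j * (starRingEnd ℂ) ζ ^ k = ζ ^ (d + j - k) := by
        rw [← pow_add, show d + j = (d + j - k) + k by omega, pow_add, mul_assoc, ← mul_pow, hζ',
          one_pow, mul_one]
        congr 1
        omega
      rw [← h3]
      ring
    show Polynomial.eval ζ P = 0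
    rw [h2, h1, mul_zero]
  have h4 : ∀ t, ∑ p ∈ (Finset.range (d + 1) ×ˢ Finset.range (d + 1)).filter
      (fun p => d + p.1 - p.2 = t), c p.1 p.2 = 0 := by
    intro t
    have := congrArg (Polynomial.coeff · t) hP0
    simp only [hP, Polynomial.finsetSum_coeff, Polynomial.coeff_monomial,
      Polynomial.coeff_zero] at this
    rw [Finset.sum_filter]
    exact this
  rw [← Finset.sum_product' (f := fun j k => f (d + j - k) * c j k)]
  rw [← Finset.sum_fiberwise_of_maps_to (t := Finset.range (2 * d + 1))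
    (g := fun p : ℕ × ℕ => d + p.1 - p.2)]
  · refine Finset.sum_eq_zero fun t _ => ?_
    have : ∑ p ∈ (Finset.range (d + 1) ×ˢ Finset.range (d + 1)).filter
        (fun p => d + p.1 - p.2 = t), f (d + p.1 - p.2) * c p.1 p.2 =
        ∑ p ∈ (Finset.range (d + 1) ×ˢ Finset.range (d + 1)).filter
        (fun p => d + p.1 - p.2 = t), f t * c p.1 p.2 := by
      refine Finset.sum_congr rfl fun p hp => ?_
      rw [(Finset.mem_filter.1 hp).2]
    rw [this, ← Finset.mul_sum, h4, mul_zero]
  · intro p hp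
    simp only [Finset.mem_product, Finset.mem_range] at hp ⊢
    omega

theorem div : DivStmt := by
  intro n d F hn hd hF h0
  obtain ⟨c, hc, hFc⟩ := bh hF
  have hx : ∀ s, (fun z : E n => ((((‖z‖ : ℝ) : ℂ)) ^ 2) ^ s) ∈ Hom n s s := by
    intro s
    induction s with
    | zero =>
      simp only [pow_zero]
      exact Submodule.subset_span ⟨1, 1, isHomogeneous_one _ _, isHomogeneous_one _ _,
        fun z => by simp⟩
    | succ s ih =>
      have := hom_mul ih normSq_mem_hom
      simpa only [pow_succ] using this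
  set W : E n → ℂ := fun z => ∑ j ∈ Finset.range (d + 1), ∑ k ∈ Finset.range (d + 1),
    ((((‖z‖ : ℝ) : ℂ)) ^ 2) ^ (d - max j k) * c j k z with hW
  have hW0 : ∀ z, W z = 0 := by
    intro z
    rcases eq_or_ne z 0 with rfl | hz
    · refine Finset.sum_eq_zero fun j hj => Finset.sum_eq_zero fun k hk => ?_
      rcases Nat.eq_zero_or_pos (j + k) with h | h
      · obtain ⟨rfl, rfl⟩ : j = 0 ∧ k = 0 := by omega
        simp
        left
        omega
      · have := hom_smul (hc j k) 0 0
        rw [smul_zero] at this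
        rw [this]
        rcases Nat.eq_zero_or_pos j with h' | h'
        · have : 0 < k := by omega
          simp [this.ne']
        · simp [h'.ne']
    · set r : ℝ := ‖z‖ with hr
      have hr0 : 0 < r := norm_pos_iff.2 hz
      have hr0' : (r : ℂ) ≠ 0 := by exact_mod_cast hr0.ne'
      set y : E n := ((r : ℂ)⁻¹) • z with hy
      have hy1 : ‖y‖ = 1 := by
        rw [hy, norm_smul, norm_inv, Complex.norm_real, Real.norm_of_nonneg hr0.le, ← hr,
          inv_mul_cancel₀ hr0.ne']
      have hzy : z = (r : ℂ) • y := by rw [hy, smul_smul, mul_inv_cancel₀ hr0', one_smul]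
      have key := fourier d (fun j k => c j k y) (fun t => (r : ℂ) ^ (2 * d - (max t d - min t d)))
        (fun ζ hζ => by
          have : F (ζ • y) = 0 := h0 _ (by rw [norm_smul, hζ, hy1, one_mul])
          rw [hFc] at this
          rw [← this]
          refine Finset.sum_congr rfl fun j _ => Finset.sum_congr rfl fun k _ => ?_
          exact (hom_smul (hc j k) ζ y).symm)
      rw [hW, ← key]
      refine Finset.sum_congr rfl fun j hj => Finset.sum_congr rfl fun k hk => ?_
      rw [Finset.mem_range] at hj hk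
      have h5 : c j k z = (r : ℂ) ^ j * (r : ℂ) ^ k * c j k y := by
        conv_lhs => rw [hzy]
        rw [hom_smul (hc j k), Complex.conj_ofReal]
      rw [h5, ← pow_mul]
      have h6 : 2 * d - (max (d + j - k) d - min (d + j - k) d) = 2 * (d - max j k) + j + k := by
        rcases le_total j k with h | h
        · rw [max_eq_right h, max_eq_right (by omega), min_eq_left (by omega)]; omega
        · rw [max_eq_left h, max_eq_left (by omega), min_eq_right (by omega)]; omega
      rw [h6, pow_add, pow_add]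
      ring
  refine ⟨fun z => - ∑ j ∈ Finset.range (d + 1), ∑ k ∈ Finset.range (d + 1),
    (∑ s ∈ Finset.range (d - max j k), ((((‖z‖ : ℝ) : ℂ)) ^ 2) ^ s) * c j k z, ?_, fun z => ?_⟩
  · have : (fun z : E n => - ∑ j ∈ Finset.range (d + 1), ∑ k ∈ Finset.range (d + 1),
        (∑ s ∈ Finset.range (d - max j k), ((((‖z‖ : ℝ) : ℂ)) ^ 2) ^ s) * c j k z) =
        - ∑ j ∈ Finset.range (d + 1), ∑ k ∈ Finset.range (d + 1),
        ∑ s ∈ Finset.range (d - max j k), fun z : E n =>
          ((((‖z‖ : ℝ) : ℂ)) ^ 2) ^ s * c j k z := by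
      ext z
      simp only [Pi.neg_apply, Finset.sum_apply, Finset.sum_mul]
    rw [this]
    refine Submodule.neg_mem _ (Submodule.sum_mem _ fun j hj => Submodule.sum_mem _ fun k hk =>
      Submodule.sum_mem _ fun s hs => ?_)
    rw [Finset.mem_range] at hs
    exact hom_le (by omega) (by omega) (hom_mul (hx s) (hc j k))
  · have h7 : ∀ m : ℕ, ((((‖z‖ : ℝ) : ℂ)) ^ 2 - 1) *
        (∑ s ∈ Finset.range m, ((((‖z‖ : ℝ) : ℂ)) ^ 2) ^ s) = ((((‖z‖ : ℝ) : ℂ)) ^ 2) ^ m - 1 :=
      fun m => mul_geom_sum _ _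
    have h8 : ((((‖z‖ : ℝ) : ℂ)) ^ 2 - 1) * (- ∑ j ∈ Finset.range (d + 1),
        ∑ k ∈ Finset.range (d + 1), (∑ s ∈ Finset.range (d - max j k),
          ((((‖z‖ : ℝ) : ℂ)) ^ 2) ^ s) * c j k z) = F z - W z := by
      rw [hFc, hW, mul_neg, Finset.mul_sum, ← Finset.sum_sub_distrib, ← Finset.sum_neg_distrib]
      refine Finset.sum_congr rfl fun j _ => ?_
      rw [Finset.mul_sum, ← Finset.sum_sub_distrib, ← Finset.sum_neg_distrib]
      refine Finset.sum_congr rfl fun k _ => ?_
      rw [← mul_assoc, h7]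
      ring
    rw [h8, hW0, sub_zero]

end Pool.Agent.H24.RSM
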