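import Pool.Agent.H24.RSM.Nsp

/-!
# Rational sphere maps: an invariant Hermitian polynomial with exact stabiliser
-/

open MvPolynomial
open scoped Matrix.Norms.L2Operator

namespace Pool.Agent.H24.RSM

variable {n : ℕ}

/-- the Hermitian form of a matrix -/
noncomputable def qf (A : Matrix (Fin n) (Fin n) ℂ) (z : E n) : ℂ :=
  ∑ i, ∑ j, A i j * (z j * (starRingEnd ℂ) (z i))

lemma qf_mem (A : Matrix (Fin n) (Fin n) ℂ) : qf A ∈ Hom n 1 1 := by
  have : qf A = ∑ i, ∑ j, A i j • fun z : E n => ev z (X j) * (starRingEnd ℂ) (ev z (X i)) := by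
    ext z
    simp only [qf, Finset.sum_apply, Pi.smul_apply, smul_eq_mul, ev_X]
  rw [this]
  exact Submodule.sum_mem _ fun i _ => Submodule.sum_mem _ fun j _ => Submodule.smul_mem _ _
    (mem_hom (isHomogeneous_X _ _) (isHomogeneous_X _ _))

lemma qf_real {A : Matrix (Fin n) (Fin n) ℂ} (hA : A.IsHermitian) (z : E n) :
    (starRingEnd ℂ) (qf A z) = qf A z := by
  simp only [qf, map_sum, map_mul, Complex.conj_conj]
  rw [Finset.sum_comm]
  refine Finset.sum_congr rfl fun i _ => Finset.sum_congr rfl fun j _ => ?_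
  have := hA.apply i j
  rw [Complex.star_def] at this
  rw [← this]
  ring

lemma qf_zero {A : Matrix (Fin n) (Fin n) ℂ} (h : ∀ z : E n, qf A z = 0) : A = 0 := by
  classical
  ext i j
  have key := polar (Finset.univ : Finset (Fin n × Fin n)) (fun p => C (A p.1 p.2) * X p.2)
    (fun p => X p.1) (fun z => by
      rw [← h z, qf, ← Finset.univ_product_univ, Finset.sum_product]
      refine Finset.sum_congr rfl fun i _ => Finset.sum_congr rfl fun j _ => ?_
      simp [mul_assoc]) (EuclideanSpace.single j 1) (EuclideanSpace.single i 1)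
  rw [← Finset.univ_product_univ, Finset.sum_product] at key
  simpa [Pi.single_apply] using key

lemma qf_act (A : Matrix (Fin n) (Fin n) ℂ) (U : Matrix.unitaryGroup (Fin n) ℂ) (z : E n) :
    qf A (act U z) = qf (star (U : Matrix (Fin n) (Fin n) ℂ) * A *
      (U : Matrix (Fin n) (Fin n) ℂ)) z := by
  have h1 : ∀ (A : Matrix (Fin n) (Fin n) ℂ) (z : E n), qf A z =
      dotProduct (star (fun i => z i)) (Matrix.mulVec A (fun i => z i)) := by
    intro A z
    simp only [qf, dotProduct, Matrix.mulVec, Pi.star_apply, Complex.star_def, Finset.mul_sum]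
    exact Finset.sum_congr rfl fun i _ => Finset.sum_congr rfl fun j _ => by ring
  rw [h1, h1]
  have h2 : (fun i => act U z i) = Matrix.mulVec (U : Matrix (Fin n) (Fin n) ℂ) (fun i => z i) :=
    rfl
  rw [h2, Matrix.star_mulVec, ← Matrix.dotProduct_mulVec, Matrix.mulVec_mulVec,
    Matrix.mulVec_mulVec, ← Matrix.star_eq_conjTranspose]

/-- the real space used for the generic choice -/
noncomputable def Vsp (n e : ℕ) (G : Subgroup (Matrix.unitaryGroup (Fin n) ℂ)) :
    Submodule ℝ (Wsp n e) where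
  carrier := {B | B ∈ Ysp n e ∧ (∀ z, (starRingEnd ℂ) (Phi e B z) = Phi e B z) ∧
    (∀ g ∈ G, ∀ z, Phi e B (act g z) = Phi e B z) ∧ Phi e B ∈ Nsp n e}
  add_mem' := by
    rintro B C ⟨h1, h2, h3, h4⟩ ⟨h1', h2', h3', h4'⟩
    refine ⟨Submodule.add_mem _ h1 h1', fun z => ?_, fun g hg z => ?_, ?_⟩
    · rw [map_add, Pi.add_apply, map_add, h2, h2']
    · rw [map_add, Pi.add_apply, Pi.add_apply, h3 g hg, h3' g hg]
    · rw [map_add]; exact Submodule.add_mem _ h4 h4'
  zero_mem' := by
    refine ⟨Submodule.zero_mem _, fun z => ?_, fun g hg z => ?_, ?_⟩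
    · simp
    · simp
    · rw [map_zero]; exact Submodule.zero_mem _
  smul_mem' := by
    rintro a B ⟨h1, h2, h3, h4⟩
    have ha : a • B = (a : ℂ) • B := by ext i; simp
    rw [ha]
    refine ⟨Submodule.smul_mem _ _ h1, fun z => ?_, fun g hg z => ?_, ?_⟩
    · rw [map_smul, Pi.smul_apply, smul_eq_mul, map_mul, h2, Complex.conj_ofReal]
    · rw [map_smul, Pi.smul_apply, Pi.smul_apply, h3 g hg]
    · rw [map_smul]; exact Submodule.smul_mem _ _ h4

/-- the pointwise stabiliser of the real space is `G` -/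
lemma stab_Vsp {e : ℕ} (he : 2 ≤ e) {G : Subgroup (Matrix.unitaryGroup (Fin n) ℂ)}
    (hG : Determines G e) (U : Matrix.unitaryGroup (Fin n) ℂ)
    (h : ∀ B ∈ Vsp n e G, rep e (U : Matrix (Fin n) (Fin n) ℂ) B = B) : U ∈ G := by
  -- real invariant functions of high order are fixed
  have h1 : ∀ N ∈ Nsp n e, (∀ z, (starRingEnd ℂ) (N z) = N z) →
      (∀ g ∈ G, ∀ z, N (act g z) = N z) → ∀ z, N (act U z) = N z := by
    intro N hN hr hg
    obtain ⟨B, hBY, hB⟩ := Phi_surj_Y (Nsp_le n e hN)
    have hBV : B ∈ Vsp n e G := ⟨hBY, by rw [hB]; exact hr, by rw [hB]; exact hg,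
      by rw [hB]; exact hN⟩
    have := (rep_eq_iff U hBY).1 (h B hBV)
    rwa [hB] at this
  -- complex invariant functions of high order are fixed
  have h2 : ∀ N ∈ Nsp n e, (∀ g ∈ G, ∀ z, N (act g z) = N z) → ∀ z, N (act U z) = N z := by
    intro N hN hg z
    have hre := h1 (fun z => N z + (starRingEnd ℂ) (N z)) (Submodule.add_mem _ hN (Nsp_conj hN))
      (fun z => by simp [add_comm]) (fun g hg' z => by simp only [hg g hg']) z
    have him := h1 (fun z => Complex.I * (N z - (starRingEnd ℂ) (N z)))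
      (Submodule.smul_mem _ _ (Submodule.sub_mem _ hN (Nsp_conj hN)))
      (fun z => by simp; ring) (fun g hg' z => by simp only [hg g hg']) z
    have him' := mul_left_cancel₀ Complex.I_ne_zero him
    linear_combination (hre + him') / 2
  refine hG U fun F hF hg => ?_
  obtain ⟨a, L, N, hL, hN, hxL, hsplit⟩ := split he hF
  -- invariance of the parts
  have h3 : ∀ g ∈ G, (∀ z, L (act g z) = L z) ∧ ∀ z, N (act g z) = N z := by
    intro g hg'
    have := split_unique (e := e) (by omega) (L := fun z => L (act g z) - L z)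
      (N := fun z => N (act g z) - N z) (Submodule.sub_mem _ (hermPoly_act hL g) hL)
      (Submodule.sub_mem _ (Nsp_act hN g) hN) (fun z => by
        have h4 := hg g hg' z
        rw [hsplit, hsplit] at h4
        linear_combination h4)
    exact ⟨fun z => sub_eq_zero.1 (this.1 z), fun z => sub_eq_zero.1 (this.2 z)⟩
  have h4 : ∀ z, N (act U z) = N z := h2 N hN fun g hg' => (h3 g hg').2
  have h5 : ∀ z, L (act U z) = L z := by
    intro z
    have h6 := h2 _ hxL (fun g hg' z => by simp only [norm_act, (h3 g hg').1 z]) z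
    simp only [norm_act] at h6
    rcases eq_or_ne z 0 with rfl | hz
    · rw [act_zero]
    · refine mul_left_cancel₀ (pow_ne_zero 2 ?_) h6
      exact_mod_cast (norm_pos_iff.2 hz).ne'
  intro z
  rw [hsplit, hsplit, h4, h5]

theorem gs (hM : MasaStmt) (hGen : GenStmt) : GsStmt := by
  intro n e G hn hfin he hG
  obtain ⟨A, hA, hAG, hAT⟩ := hM n G
  have hcont : Continuous (repR e : Matrix (Fin n) (Fin n) ℂ → (Wsp n e →L[ℝ] Wsp n e)) :=
    (differentiable_repR e).continuous
  obtain ⟨v, hv, hstab⟩ := hGen n G (Wsp n e) (repR e) A (Vsp n e G) hfin hA hAG hAT hcont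
    ((differentiable_repR e) 1) (fun u v => by
      ext w : 1
      show rep e ((u : Matrix (Fin n) (Fin n) ℂ) * (v : Matrix (Fin n) (Fin n) ℂ)) w = _
      rw [rep_mul]
      rfl) (fun u w => norm_rep e u w)
    (fun B hB g hg => (rep_eq_iff g hB.1).2 (hB.2.2.1 g hg))
    (fun u _ hu => stab_Vsp he hG u hu)
  obtain ⟨hvY, hvr, hvG, hvN⟩ := hv
  have hR : ∀ z, ((((qf A z + Phi e v z).re : ℝ)) : ℂ) = qf A z + Phi e v z := by
    intro z
    exact Complex.conj_eq_iff_re.1 (by rw [map_add, qf_real hA, hvr])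
  have hqG : ∀ g ∈ G, ∀ z, qf A (act g z) = qf A z := by
    intro g hg z
    rw [qf_act]
    congr 1
    have h1 := hAG g hg
    rw [mul_assoc, ← h1.eq, ← mul_assoc]
    rw [Matrix.UnitaryGroup.star_mul_self, one_mul]
  refine ⟨fun z => (qf A z + Phi e v z).re, ?_, fun g hg z => ?_, ?_, fun U hU => ?_⟩
  · have : (fun z => ((((qf A z + Phi e v z).re : ℝ)) : ℂ)) = qf A + Phi e v := funext hR
    rw [this]
    exact Submodule.add_mem _ (hom_le (by omega) (by omega) (qf_mem A)) (Phi_mem e v)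
  · dsimp only
    rw [hqG g hg, hvG g hg]
  · obtain ⟨C₁, hC₁, h1⟩ := Hom_bound (by omega) (qf_mem A)
    obtain ⟨C₂, hC₂, h2⟩ := Nsp_bound hvN
    refine ⟨C₁ + C₂, fun z hz => ?_⟩
    calc |(qf A z + Phi e v z).re| ≤ ‖qf A z + Phi e v z‖ := Complex.abs_re_le_norm _
      _ ≤ ‖qf A z‖ + ‖Phi e v z‖ := norm_add_le _ _
      _ ≤ C₁ * ‖z‖ ^ 2 + C₂ * ‖z‖ ^ 2 := add_le_add (h1 z hz) (h2 z hz)
      _ = (C₁ + C₂) * ‖z‖ ^ 2 := by ring
  · have hU' : ∀ z, qf A (act U z) + Phi e v (act U z) = qf A z + Phi e v z := by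
      intro z
      have h0 : (qf A (act U z) + Phi e v (act U z)).re = (qf A z + Phi e v z).re := hU z
      have h1 := hR (act U z)
      have h2 := hR z
      rw [← h1, ← h2, h0]
    have h1 := split_unique (e := e) (by omega) (L := fun z => qf A (act U z) - qf A z)
      (N := fun z => Phi e v (act U z) - Phi e v z)
      (Submodule.sub_mem _ (hom_le (by omega) (by omega) (hom_act (qf_mem A) U))
        (hom_le (by omega) (by omega) (qf_mem A)))
      (Submodule.sub_mem _ (Nsp_act hvN U) hvN) (fun z => by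
        linear_combination hU' z)
    have h2 : star (U : Matrix (Fin n) (Fin n) ℂ) * A * (U : Matrix (Fin n) (Fin n) ℂ) - A =
        0 := by
      refine qf_zero fun z => ?_
      have := h1.1 z
      rw [qf_act] at this
      rw [← this]
      simp only [qf, Matrix.sub_apply, sub_mul, Finset.sum_sub_distrib]
    have h3 : A * (U : Matrix (Fin n) (Fin n) ℂ) = (U : Matrix (Fin n) (Fin n) ℂ) * A := by
      have h4 : (U : Matrix (Fin n) (Fin n) ℂ) * (star (U : Matrix (Fin n) (Fin n) ℂ) * A *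
          (U : Matrix (Fin n) (Fin n) ℂ)) = (U : Matrix (Fin n) (Fin n) ℂ) * A := by
        rw [sub_eq_zero.1 h2]
      rw [← h4, ← mul_assoc, ← mul_assoc]
      have h5 : (U : Matrix (Fin n) (Fin n) ℂ) * star (U : Matrix (Fin n) (Fin n) ℂ) = 1 :=
        Matrix.mem_unitaryGroup_iff.1 U.2
      rw [h5, one_mul]
    refine hstab U h3.symm ?_
    exact (rep_eq_iff U hvY).2 fun z => sub_eq_zero.1 (h1.2 z)

end Pool.Agent.H24.RSM
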