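import Pool.Agent.H24.RSM.Stmts

/-!
# Rational sphere maps: toolkit for Hermitian polynomials
-/

open MvPolynomial

namespace Pool.Agent.H24.RSM

variable {n : ℕ}

/-! ## Independence of `s^j conj(s)^k` -/

theorem pol1 (e : ℕ) (c : ℕ → ℕ → ℂ) (δ : ℝ) (hδ : 0 < δ)
    (h : ∀ s : ℂ, ‖s‖ < δ → ∑ j ∈ Finset.range (e + 1), ∑ k ∈ Finset.range (e + 1),
      c j k * s ^ j * (starRingEnd ℂ) s ^ k = 0) :
    ∀ j ≤ e, ∀ k ≤ e, c j k = 0 := by
  classical
  set P : MvPolynomial (Fin 2) ℂ := ∑ j ∈ Finset.range (e + 1), ∑ k ∈ Finset.range (e + 1),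
    monomial (Finsupp.single 0 j + Finsupp.single 1 k) (c j k) with hP
  have evP : ∀ x : Fin 2 → ℂ, eval x P = ∑ j ∈ Finset.range (e + 1),
      ∑ k ∈ Finset.range (e + 1), c j k * x 0 ^ j * x 1 ^ k := by
    intro x
    simp only [hP, map_sum, eval_monomial]
    refine Finset.sum_congr rfl fun j _ => Finset.sum_congr rfl fun k _ => ?_
    rw [Finsupp.prod_add_index' (by simp) (by intros; rw [pow_add])]
    simp [mul_assoc]
  set Q : MvPolynomial (Fin 2) ℂ := ∑ j ∈ Finset.range (e + 1), ∑ k ∈ Finset.range (e + 1),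
    C (c j k) * (X 0 + C Complex.I * X 1) ^ j * (X 0 - C Complex.I * X 1) ^ k with hQ
  have evQ : ∀ x : Fin 2 → ℂ, eval x Q =
      eval ![x 0 + Complex.I * x 1, x 0 - Complex.I * x 1] P := by
    intro x
    rw [evP]
    simp [hQ]
  have hinf : ∀ i : Fin 2, ((fun t : ℝ => (t : ℂ)) '' Set.Ioo 0 (δ / 2)).Infinite := fun i =>
    Set.Infinite.image (fun a _ b _ hab => Complex.ofReal_injective hab)
      (Set.Ioo_infinite (by positivity))
  have hQ0 : Q = 0 := by
    refine MvPolynomial.funext_set (fun _ : Fin 2 => (fun t : ℝ => (t : ℂ)) '' Set.Ioo 0 (δ / 2))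
      hinf (p := Q) (q := 0) fun x hx => ?_
    obtain ⟨a, ha, ha'⟩ := hx 0 (Set.mem_univ _)
    obtain ⟨b, hb, hb'⟩ := hx 1 (Set.mem_univ _)
    simp only at ha' hb'
    rw [evQ, evP, map_zero]
    have hconj : (starRingEnd ℂ) ((a : ℂ) + Complex.I * b) = a - Complex.I * b := by
      simp [sub_eq_add_neg]
    have := h ((a : ℂ) + Complex.I * b) ?_
    · rw [hconj] at this
      simpa [← ha', ← hb'] using this
    · calc ‖(a : ℂ) + Complex.I * b‖ ≤ ‖(a : ℂ)‖ + ‖Complex.I * b‖ := norm_add_le _ _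
        _ = a + b := by
          rw [norm_mul, Complex.norm_I, one_mul, Complex.norm_real, Complex.norm_real,
            Real.norm_of_nonneg ha.1.le, Real.norm_of_nonneg hb.1.le]
        _ < δ := by linarith [ha.2, hb.2]
  have hP0 : P = 0 := by
    refine MvPolynomial.funext fun x => ?_
    have := evQ ![(x 0 + x 1) / 2, (x 0 - x 1) / (2 * Complex.I)]
    rw [hQ0, map_zero] at this
    rw [map_zero, this]
    congr 2
    have hI : Complex.I ≠ 0 := Complex.I_ne_zero
    funext i
    fin_cases i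
    · simp
      field_simp
      ring
    · simp
      field_simp
      ring
  intro j hj k hk
  have := congrArg (coeff (Finsupp.single 0 j + Finsupp.single 1 k)) hP0
  rw [hP, coeff_zero] at this
  simp only [coeff_sum, coeff_monomial] at this
  rw [Finset.sum_eq_single j, Finset.sum_eq_single k] at this
  · simpa using this
  · intro b _ hb
    rw [if_neg]
    intro hbj
    have := DFunLike.congr_fun hbj 1
    simp at this
    exact hb this
  · intro hk'
    exact absurd (Finset.mem_range.2 (by omega)) hk'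
  · intro b _ hb
    refine Finset.sum_eq_zero fun k' _ => ?_
    rw [if_neg]
    intro hbj
    have := DFunLike.congr_fun hbj 0
    simp at this
    exact hb this
  · intro hj'
    exact absurd (Finset.mem_range.2 (by omega)) hj'

/-! ## Evaluation -/

@[simp] lemma ev_mul (z : E n) (p r : MvPolynomial (Fin n) ℂ) :
    ev z (p * r) = ev z p * ev z r := map_mul _ _ _

@[simp] lemma ev_add (z : E n) (p r : MvPolynomial (Fin n) ℂ) :
    ev z (p + r) = ev z p + ev z r := map_add _ _ _

@[simp] lemma ev_sub (z : E n) (p r : MvPolynomial (Fin n) ℂ) :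
    ev z (p - r) = ev z p - ev z r := map_sub _ _ _

@[simp] lemma ev_sum {ι : Type*} (s : Finset ι) (z : E n) (p : ι → MvPolynomial (Fin n) ℂ) :
    ev z (∑ i ∈ s, p i) = ∑ i ∈ s, ev z (p i) := map_sum _ _ _

@[simp] lemma ev_prod {ι : Type*} (s : Finset ι) (z : E n) (p : ι → MvPolynomial (Fin n) ℂ) :
    ev z (∏ i ∈ s, p i) = ∏ i ∈ s, ev z (p i) := map_prod _ _ _

@[simp] lemma ev_pow (z : E n) (p : MvPolynomial (Fin n) ℂ) (k : ℕ) :
    ev z (p ^ k) = ev z p ^ k := map_pow _ _ _

@[simp] lemma ev_C (z : E n) (a : ℂ) : ev z (C a : MvPolynomial (Fin n) ℂ) = a := by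
  simp [ev]

@[simp] lemma ev_one (z : E n) : ev z (1 : MvPolynomial (Fin n) ℂ) = 1 := map_one _

@[simp] lemma ev_zero (z : E n) : ev z (0 : MvPolynomial (Fin n) ℂ) = 0 := map_zero _

@[simp] lemma ev_X (z : E n) (i : Fin n) : ev z (X i : MvPolynomial (Fin n) ℂ) = z i := by
  simp [ev]

@[simp] lemma ev_smul (z : E n) (a : ℂ) (p : MvPolynomial (Fin n) ℂ) :
    ev z (a • p) = a * ev z p := by
  simp [ev, smul_eval]

lemma ev_eq_sum (z : E n) (p : MvPolynomial (Fin n) ℂ) :
    ev z p = ∑ d ∈ p.support, coeff d p * ∏ i, z i ^ d i := by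
  rw [ev, eval_eq']

lemma sum_le_totalDegree {p : MvPolynomial (Fin n) ℂ} {d : Fin n →₀ ℕ} (hd : d ∈ p.support) :
    ∑ i, d i ≤ p.totalDegree := by
  have := le_totalDegree hd
  rwa [Finsupp.sum_fintype _ _ (by simp)] at this

lemma sum_eq_of_isHomogeneous {p : MvPolynomial (Fin n) ℂ} {k : ℕ} (hp : p.IsHomogeneous k)
    {d : Fin n →₀ ℕ} (hd : d ∈ p.support) : ∑ i, d i = k := by
  have h1 := hp.degree_eq_sum_deg_support hd
  rw [h1]
  exact (Finset.sum_subset (Finset.subset_univ _) (by simp)).symm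

lemma ev_smul_arg {p : MvPolynomial (Fin n) ℂ} {k : ℕ} (hp : p.IsHomogeneous k) (s : ℂ)
    (z : E n) : ev (s • z) p = s ^ k * ev z p := by
  rw [ev_eq_sum, ev_eq_sum, Finset.mul_sum]
  refine Finset.sum_congr rfl fun d hd => ?_
  rw [← sum_eq_of_isHomogeneous hp hd]
  simp only [PiLp.smul_apply, smul_eq_mul, mul_pow, Finset.prod_mul_distrib,
    Finset.prod_pow_eq_pow_sum]
  ring

lemma continuous_ev (p : MvPolynomial (Fin n) ℂ) : Continuous fun z : E n => ev z p := by
  simp only [ev_eq_sum]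
  fun_prop

lemma differentiable_ev (p : MvPolynomial (Fin n) ℂ) : Differentiable ℂ fun z : E n => ev z p := by
  simp only [ev_eq_sum]
  fun_prop

/-! ## The action -/

@[simp] lemma act_apply (U : Matrix.unitaryGroup (Fin n) ℂ) (z : E n) (i : Fin n) :
    act U z i = ∑ j, (U : Matrix (Fin n) (Fin n) ℂ) i j * z j := by
  simp [act, Matrix.mulVec, dotProduct]

lemma act_mul (U V : Matrix.unitaryGroup (Fin n) ℂ) (z : E n) :
    act (U * V) z = act U (act V z) := by
  simp [act, Matrix.mulVec_mulVec]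

@[simp] lemma act_one (z : E n) : act 1 z = z := by
  simp [act]

lemma act_inv_act (U : Matrix.unitaryGroup (Fin n) ℂ) (z : E n) : act U⁻¹ (act U z) = z := by
  rw [← act_mul]; simp

lemma act_act_inv (U : Matrix.unitaryGroup (Fin n) ℂ) (z : E n) : act U (act U⁻¹ z) = z := by
  rw [← act_mul]; simp

lemma act_add (U : Matrix.unitaryGroup (Fin n) ℂ) (z w : E n) :
    act U (z + w) = act U z + act U w := by
  ext i
  simp [mul_add, Finset.sum_add_distrib]

lemma act_smul (U : Matrix.unitaryGroup (Fin n) ℂ) (s : ℂ) (z : E n) :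
    act U (s • z) = s • act U z := by
  ext i
  simp [Finset.mul_sum, mul_left_comm]

@[simp] lemma act_zero (U : Matrix.unitaryGroup (Fin n) ℂ) : act U (0 : E n) = 0 := by
  ext i
  simp

lemma norm_act (U : Matrix.unitaryGroup (Fin n) ℂ) (z : E n) : ‖act U z‖ = ‖z‖ := by
  have h := U.2
  rw [Matrix.mem_unitaryGroup_iff'] at h
  have h2 : inner ℂ (act U z) (act U z) = inner ℂ z z := by
    rw [EuclideanSpace.inner_eq_star_dotProduct, EuclideanSpace.inner_eq_star_dotProduct]
    show dotProduct (Matrix.mulVec (U : Matrix (Fin n) (Fin n) ℂ) (fun i => z i))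
      (star (Matrix.mulVec (U : Matrix (Fin n) (Fin n) ℂ) (fun i => z i))) =
      dotProduct (fun i => z i) (star (fun i => z i))
    rw [Matrix.star_mulVec, dotProduct_comm, ← Matrix.dotProduct_mulVec, Matrix.mulVec_mulVec,
      ← Matrix.star_eq_conjTranspose, h, Matrix.one_mulVec, dotProduct_comm]
  rw [inner_self_eq_norm_sq_to_K, inner_self_eq_norm_sq_to_K] at h2
  have h3 : ‖act U z‖ ^ 2 = ‖z‖ ^ 2 := by exact_mod_cast h2
  exact (pow_left_inj₀ (norm_nonneg _) (norm_nonneg _) two_ne_zero).1 h3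

/-! ## Homogeneous pieces -/

lemma hom_smul {j k : ℕ} {F : E n → ℂ} (hF : F ∈ Hom n j k) (s : ℂ) (z : E n) :
    F (s • z) = s ^ j * (starRingEnd ℂ) s ^ k * F z := by
  induction hF using Submodule.span_induction with
  | mem F hF =>
    obtain ⟨p, r, hp, hr, h⟩ := hF
    rw [h, h, ev_smul_arg hp, ev_smul_arg hr, map_mul, map_pow]
    ring
  | zero => simp
  | add F G _ _ hF hG => simp only [Pi.add_apply, hF, hG]; ring
  | smul a F _ hF => simp only [Pi.smul_apply, smul_eq_mul, hF]; ring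

lemma mem_hermPoly {e : ℕ} {p r : MvPolynomial (Fin n) ℂ} (hp : p.totalDegree ≤ e)
    (hr : r.totalDegree ≤ e) :
    (fun z : E n => ev z p * (starRingEnd ℂ) (ev z r)) ∈ HermPoly n e :=
  Submodule.subset_span ⟨p, r, hp, hr, fun _ => rfl⟩

lemma mem_hom {j k : ℕ} {p r : MvPolynomial (Fin n) ℂ} (hp : p.IsHomogeneous j)
    (hr : r.IsHomogeneous k) :
    (fun z : E n => ev z p * (starRingEnd ℂ) (ev z r)) ∈ Hom n j k :=
  Submodule.subset_span ⟨p, r, hp, hr, fun _ => rfl⟩

lemma hom_le {j k e : ℕ} (hj : j ≤ e) (hk : k ≤ e) : Hom n j k ≤ HermPoly n e := by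
  refine Submodule.span_mono ?_
  rintro F ⟨p, r, hp, hr, h⟩
  exact ⟨p, r, hp.totalDegree_le.trans hj, hr.totalDegree_le.trans hk, h⟩

lemma hermPoly_mono {e e' : ℕ} (h : e ≤ e') : HermPoly n e ≤ HermPoly n e' := by
  refine Submodule.span_mono ?_
  rintro F ⟨p, r, hp, hr, hF⟩
  exact ⟨p, r, hp.trans h, hr.trans h, hF⟩

lemma ev_eq_sum_homogeneous {e : ℕ} {p : MvPolynomial (Fin n) ℂ} (hp : p.totalDegree ≤ e)
    (z : E n) : ev z p = ∑ j ∈ Finset.range (e + 1), ev z (homogeneousComponent j p) := by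
  conv_lhs => rw [← sum_homogeneousComponent p]
  rw [ev_sum]
  refine Finset.sum_subset (fun j hj => ?_) fun j _ hj => ?_
  · rw [Finset.mem_range] at *
    omega
  · rw [Finset.mem_range] at hj
    rw [homogeneousComponent_eq_zero _ _ (by omega), ev_zero]

/-- decomposition of a polynomial in `z, conj z` into its bihomogeneous components -/
theorem bh {e : ℕ} {F : E n → ℂ} (hF : F ∈ HermPoly n e) :
    ∃ c : ℕ → ℕ → (E n → ℂ), (∀ j k, c j k ∈ Hom n j k) ∧
      ∀ z, F z = ∑ j ∈ Finset.range (e + 1), ∑ k ∈ Finset.range (e + 1), c j k z := by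
  induction hF using Submodule.span_induction with
  | mem F hF =>
    obtain ⟨p, r, hp, hr, h⟩ := hF
    refine ⟨fun j k z => ev z (homogeneousComponent j p) *
      (starRingEnd ℂ) (ev z (homogeneousComponent k r)), fun j k => mem_hom
        (homogeneousComponent_isHomogeneous _ _) (homogeneousComponent_isHomogeneous _ _),
        fun z => ?_⟩
    rw [h, ev_eq_sum_homogeneous hp, ev_eq_sum_homogeneous hr, map_sum, Finset.sum_mul_sum]
  | zero => exact ⟨fun _ _ => 0, fun j k => (Hom n j k).zero_mem, fun z => by simp⟩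
  | add F G _ _ hF hG =>
    obtain ⟨c, hc, h⟩ := hF
    obtain ⟨d, hd, h'⟩ := hG
    refine ⟨fun j k => c j k + d j k, fun j k => (Hom n j k).add_mem (hc j k) (hd j k),
      fun z => ?_⟩
    simp only [Pi.add_apply, h, h', Finset.sum_add_distrib]
  | smul a F _ hF =>
    obtain ⟨c, hc, h⟩ := hF
    refine ⟨fun j k => a • c j k, fun j k => (Hom n j k).smul_mem a (hc j k), fun z => ?_⟩
    simp only [Pi.smul_apply, smul_eq_mul, h, Finset.mul_sum]

/-- a sum of bihomogeneous functions vanishing near the origin has vanishing components -/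
theorem bh_unique {e : ℕ} {c : ℕ → ℕ → (E n → ℂ)} (hc : ∀ j k, c j k ∈ Hom n j k)
    (h : ∀ z ∈ Bn n, ∑ j ∈ Finset.range (e + 1), ∑ k ∈ Finset.range (e + 1), c j k z = 0) :
    ∀ j ≤ e, ∀ k ≤ e, ∀ z, c j k z = 0 := by
  intro j hj k hk z
  refine pol1 e (fun j k => c j k z) (1 / (‖z‖ + 1)) (by positivity) (fun s hs => ?_) j hj k hk
  have := h (s • z) ?_
  · simp only [hom_smul (hc _ _)] at this
    rw [← this]
    refine Finset.sum_congr rfl fun j _ => Finset.sum_congr rfl fun k _ => ?_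
    ring
  · rw [Bn, mem_ball_zero_iff, norm_smul]
    rw [lt_div_iff₀ (by positivity)] at hs
    nlinarith [norm_nonneg s, norm_nonneg z]

theorem idp {e : ℕ} {F : E n → ℂ} (hF : F ∈ HermPoly n e) (h : ∀ z ∈ Bn n, F z = 0) :
    ∀ z, F z = 0 := by
  obtain ⟨c, hc, hF⟩ := bh hF
  intro z
  rw [hF]
  refine Finset.sum_eq_zero fun j hj => Finset.sum_eq_zero fun k hk => ?_
  exact bh_unique hc (fun z hz => by rw [← hF, h z hz]) j (by simpa [Nat.lt_succ_iff] using hj)
    k (by simpa [Nat.lt_succ_iff] using hk) z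

/-! ## Closure properties -/

lemma hermPoly_mul {a b : ℕ} {F G : E n → ℂ} (hF : F ∈ HermPoly n a) (hG : G ∈ HermPoly n b) :
    (fun z => F z * G z) ∈ HermPoly n (a + b) := by
  induction hF using Submodule.span_induction with
  | mem F hF =>
    obtain ⟨p, r, hp, hr, h⟩ := hF
    induction hG using Submodule.span_induction with
    | mem G hG =>
      obtain ⟨p', r', hp', hr', h'⟩ := hG
      refine Submodule.subset_span ⟨p * p', r * r', (totalDegree_mul _ _).trans (by omega),
        (totalDegree_mul _ _).trans (by omega), fun z => ?_⟩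
      simp only [h, h', ev_mul, map_mul]
      ring
    | zero => convert Submodule.zero_mem _ using 1; ext z; simp
    | add G G' _ _ hG hG' =>
      convert Submodule.add_mem _ hG hG' using 1
      ext z
      simp [mul_add]
    | smul t G _ hG =>
      convert Submodule.smul_mem _ t hG using 1
      ext z
      simp only [Pi.smul_apply, smul_eq_mul]
      ring
  | zero => convert Submodule.zero_mem _ using 1; ext z; simp
  | add F F' _ _ hF hF' =>
    convert Submodule.add_mem _ hF hF' using 1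
    ext z
    simp [add_mul]
  | smul t F _ hF =>
    convert Submodule.smul_mem _ t hF using 1
    ext z
    simp only [Pi.smul_apply, smul_eq_mul]
    ring

lemma hom_mul {j k j' k' : ℕ} {F G : E n → ℂ} (hF : F ∈ Hom n j k) (hG : G ∈ Hom n j' k') :
    (fun z => F z * G z) ∈ Hom n (j + j') (k + k') := by
  induction hF using Submodule.span_induction with
  | mem F hF =>
    obtain ⟨p, r, hp, hr, h⟩ := hF
    induction hG using Submodule.span_induction with
    | mem G hG =>
      obtain ⟨p', r', hp', hr', h'⟩ := hG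
      refine Submodule.subset_span ⟨p * p', r * r', hp.mul hp', hr.mul hr', fun z => ?_⟩
      simp only [h, h', ev_mul, map_mul]
      ring
    | zero => convert Submodule.zero_mem _ using 1; ext z; simp
    | add G G' _ _ hG hG' =>
      convert Submodule.add_mem _ hG hG' using 1
      ext z
      simp [mul_add]
    | smul t G _ hG =>
      convert Submodule.smul_mem _ t hG using 1
      ext z
      simp only [Pi.smul_apply, smul_eq_mul]
      ring
  | zero => convert Submodule.zero_mem _ using 1; ext z; simp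
  | add F F' _ _ hF hF' =>
    convert Submodule.add_mem _ hF hF' using 1
    ext z
    simp [add_mul]
  | smul t F _ hF =>
    convert Submodule.smul_mem _ t hF using 1
    ext z
    simp only [Pi.smul_apply, smul_eq_mul]
    ring

lemma hermPoly_conj {e : ℕ} {F : E n → ℂ} (hF : F ∈ HermPoly n e) :
    (fun z => (starRingEnd ℂ) (F z)) ∈ HermPoly n e := by
  induction hF using Submodule.span_induction with
  | mem F hF =>
    obtain ⟨p, r, hp, hr, h⟩ := hF
    refine Submodule.subset_span ⟨r, p, hr, hp, fun z => ?_⟩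
    simp only [h, map_mul, Complex.conj_conj, mul_comm]
  | zero => convert Submodule.zero_mem _ using 1; ext z; simp
  | add F F' _ _ hF hF' =>
    convert Submodule.add_mem _ hF hF' using 1
    ext z
    simp
  | smul t F _ hF =>
    convert Submodule.smul_mem _ ((starRingEnd ℂ) t) hF using 1
    ext z
    simp

lemma hom_conj {j k : ℕ} {F : E n → ℂ} (hF : F ∈ Hom n j k) :
    (fun z => (starRingEnd ℂ) (F z)) ∈ Hom n k j := by
  induction hF using Submodule.span_induction with
  | mem F hF =>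
    obtain ⟨p, r, hp, hr, h⟩ := hF
    refine Submodule.subset_span ⟨r, p, hr, hp, fun z => ?_⟩
    simp only [h, map_mul, Complex.conj_conj, mul_comm]
  | zero => convert Submodule.zero_mem _ using 1; ext z; simp
  | add F F' _ _ hF hF' =>
    convert Submodule.add_mem _ hF hF' using 1
    ext z
    simp
  | smul t F _ hF =>
    convert Submodule.smul_mem _ ((starRingEnd ℂ) t) hF using 1
    ext z
    simp

lemma continuous_of_mem {e : ℕ} {F : E n → ℂ} (hF : F ∈ HermPoly n e) : Continuous F := by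
  induction hF using Submodule.span_induction with
  | mem F hF =>
    obtain ⟨p, r, hp, hr, h⟩ := hF
    rw [show F = fun z => ev z p * (starRingEnd ℂ) (ev z r) from funext h]
    exact (continuous_ev p).mul (Complex.continuous_conj.comp (continuous_ev r))
  | zero => exact continuous_const
  | add F F' _ _ hF hF' => exact hF.add hF'
  | smul t F _ hF => exact continuous_const.mul hF

lemma normSq_mem_hom : (fun z : E n => (((‖z‖ : ℝ) : ℂ)) ^ 2) ∈ Hom n 1 1 := by
  have : (fun z : E n => (((‖z‖ : ℝ) : ℂ)) ^ 2) =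
      ∑ i, fun z : E n => ev z (X i) * (starRingEnd ℂ) (ev z (X i)) := by
    ext z
    rw [Finset.sum_apply]
    simp only [ev_X, Complex.mul_conj, Complex.normSq_eq_norm_sq]
    rw [← Complex.ofReal_pow, EuclideanSpace.norm_sq_eq]
    push_cast
    rfl
  rw [this]
  exact Submodule.sum_mem _ fun i _ => mem_hom (isHomogeneous_X _ _) (isHomogeneous_X _ _)

lemma normSq_mem {e : ℕ} (he : 1 ≤ e) :
    (fun z : E n => (((‖z‖ : ℝ) : ℂ)) ^ 2) ∈ HermPoly n e := hom_le he he normSq_mem_hom

lemma const_mem (e : ℕ) (a : ℂ) : (fun _ : E n => a) ∈ HermPoly n e := by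
  refine Submodule.subset_span ⟨C a, 1, by simp, by simp, fun z => by simp⟩

/-! ## Substitution -/

/-- substitution of affine functions, with denominators cleared -/
theorem pull {d : ℕ} {p : MvPolynomial (Fin n) ℂ} (hp : p.totalDegree ≤ d) {m : ℕ}
    (L : Fin n → MvPolynomial (Fin m) ℂ) (l : MvPolynomial (Fin m) ℂ)
    (hL : ∀ i, (L i).totalDegree ≤ 1) (hl : l.totalDegree ≤ 1) :
    ∃ p' : MvPolynomial (Fin m) ℂ, p'.totalDegree ≤ d ∧ ∀ z : E m, ev z l ≠ 0 →
      ev z p' = ev z l ^ d * ev (WithLp.toLp 2 (fun i => ev z (L i) / ev z l) : E n) p := by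
  refine ⟨∑ t ∈ p.support, C (coeff t p) * (l ^ (d - ∑ i, t i) * ∏ i, L i ^ t i), ?_, ?_⟩
  · refine totalDegree_finsetSum_le fun t ht => ?_
    have h1 : ∑ i, t i ≤ d := (sum_le_totalDegree ht).trans hp
    have h2 : (l ^ (d - ∑ i, t i)).totalDegree ≤ d - ∑ i, t i :=
      (totalDegree_pow _ _).trans (by nlinarith)
    have h3 : (∏ i, L i ^ t i).totalDegree ≤ ∑ i, t i := by
      refine (totalDegree_finsetProd _ _).trans (Finset.sum_le_sum fun i _ => ?_)
      exact (totalDegree_pow _ _).trans (by nlinarith [hL i])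
    refine (totalDegree_mul _ _).trans ?_
    rw [totalDegree_C, zero_add]
    exact (totalDegree_mul _ _).trans (by omega)
  · intro z hz
    rw [ev_eq_sum (WithLp.toLp 2 (fun i => ev z (L i) / ev z l) : E n) p, ev_sum, Finset.mul_sum]
    refine Finset.sum_congr rfl fun t ht => ?_
    have h1 : ∑ i, t i ≤ d := (sum_le_totalDegree ht).trans hp
    simp only [ev_mul, ev_C, ev_pow, ev_prod, div_pow, Finset.prod_div_distrib,
      Finset.prod_pow_eq_pow_sum]
    have h2 : ev z l ^ d = ev z l ^ (d - ∑ i, t i) * ev z l ^ (∑ i, t i) := by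
      rw [← pow_add]; congr 1; omega
    rw [h2]
    field_simp

/-- a linear functional of `(z, 1)` is a polynomial of degree at most one -/
theorem lin_poly {m : ℕ} (φ : (E m × ℂ) →ₗ[ℂ] ℂ) :
    ∃ l : MvPolynomial (Fin m) ℂ, l.totalDegree ≤ 1 ∧ ∀ z : E m, ev z l = φ (z, 1) := by
  refine ⟨C (φ (0, 1)) + ∑ i, C (φ (EuclideanSpace.single i 1, 0)) * X i, ?_, fun z => ?_⟩
  · refine (totalDegree_add _ _).trans (max_le (by simp) ?_)
    refine totalDegree_finsetSum_le fun i _ => ?_
    refine (totalDegree_mul _ _).trans ?_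
    rw [totalDegree_C, totalDegree_X]
  · have hz : (z, (1 : ℂ)) = (0, 1) + ∑ i, z i • (EuclideanSpace.single i (1 : ℂ), (0 : ℂ)) := by
      have h1 : ∑ i, z i • (EuclideanSpace.single i (1 : ℂ), (0 : ℂ)) = (z, 0) := by
        refine Prod.ext ?_ ?_
        · simp only [Prod.fst_sum, Prod.smul_fst]
          ext j
          simp [Finset.sum_apply, Pi.single_apply]
        · simp [Prod.snd_sum]
      rw [h1]
      simp
    rw [hz, map_add, map_sum]
    simp only [map_smul, smul_eq_mul, ev_add, ev_C, ev_sum, ev_mul, ev_X]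
    congr 1
    exact Finset.sum_congr rfl fun i _ => mul_comm _ _

theorem pullM {d m : ℕ} {p : MvPolynomial (Fin m) ℂ} (hp : p.totalDegree ≤ d)
    (M : (E m × ℂ) →ₗ[ℂ] (E m × ℂ)) :
    ∃ p' : MvPolynomial (Fin m) ℂ, p'.totalDegree ≤ d ∧ ∀ z : E m, (M (z, 1)).2 ≠ 0 →
      ev z p' = (M (z, 1)).2 ^ d * ev (frac M z) p := by
  choose L hL hL' using fun i : Fin m => lin_poly
    (((EuclideanSpace.proj i : E m →L[ℂ] ℂ) : E m →ₗ[ℂ] ℂ) ∘ₗ LinearMap.fst ℂ (E m) ℂ ∘ₗ M)
  obtain ⟨l, hl, hl'⟩ := lin_poly (LinearMap.snd ℂ (E m) ℂ ∘ₗ M)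
  obtain ⟨p', h1, h2⟩ := pull hp L l hL hl
  refine ⟨p', h1, fun z hz => ?_⟩
  have hlz : ev z l = (M (z, 1)).2 := by rw [hl']; rfl
  rw [h2 z (by rw [hlz]; exact hz), hlz]
  congr 2
  ext i
  have : ev z (L i) = (M (z, 1)).1 i := by rw [hL']; rfl
  simp [frac, this, div_eq_inv_mul]

/-- substitution of a unitary matrix -/
theorem act_poly {d : ℕ} {p : MvPolynomial (Fin n) ℂ} (hp : p.totalDegree ≤ d)
    (U : Matrix.unitaryGroup (Fin n) ℂ) :
    ∃ p' : MvPolynomial (Fin n) ℂ, p'.totalDegree ≤ d ∧ ∀ z : E n, ev z p' = ev (act U z) p := by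
  obtain ⟨p', h1, h2⟩ := pull hp (fun i => ∑ j, C ((U : Matrix (Fin n) (Fin n) ℂ) i j) * X j) 1
    (fun i => totalDegree_finsetSum_le fun j _ => (totalDegree_mul _ _).trans (by
      rw [totalDegree_C, totalDegree_X])) (by simp)
  refine ⟨p', h1, fun z => ?_⟩
  rw [h2 z (by simp)]
  simp only [ev_one, one_pow, one_mul, div_one]
  congr 1
  ext i
  simp

theorem act_poly_hom {j : ℕ} {p : MvPolynomial (Fin n) ℂ} (hp : p.IsHomogeneous j)
    (U : Matrix.unitaryGroup (Fin n) ℂ) :
    ∃ p' : MvPolynomial (Fin n) ℂ, p'.IsHomogeneous j ∧ ∀ z : E n, ev z p' = ev (act U z) p := by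
  refine ⟨∑ t ∈ p.support, C (coeff t p) *
    ∏ i, (∑ j, C ((U : Matrix (Fin n) (Fin n) ℂ) i j) * X j) ^ t i, ?_, fun z => ?_⟩
  · refine IsHomogeneous.sum _ _ _ fun t ht => ?_
    have h1 := sum_eq_of_isHomogeneous hp ht
    have h2 : (∏ i, (∑ j, C ((U : Matrix (Fin n) (Fin n) ℂ) i j) * X j) ^ t i :
        MvPolynomial (Fin n) ℂ).IsHomogeneous (∑ i, t i) := by
      refine IsHomogeneous.prod _ _ _ fun i _ => ?_
      have := (IsHomogeneous.sum Finset.univ
        (fun j => C ((U : Matrix (Fin n) (Fin n) ℂ) i j) * X j) 1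
        (fun j _ => isHomogeneous_C_mul_X _ _)).pow (t i)
      simpa using this
    have := (isHomogeneous_C (Fin n) (coeff t p)).mul h2
    rwa [zero_add, h1] at this
  · rw [ev_eq_sum (act U z) p, ev_sum]
    refine Finset.sum_congr rfl fun t _ => ?_
    simp

lemma hermPoly_act {e : ℕ} {F : E n → ℂ} (hF : F ∈ HermPoly n e)
    (U : Matrix.unitaryGroup (Fin n) ℂ) : (fun z => F (act U z)) ∈ HermPoly n e := by
  induction hF using Submodule.span_induction with
  | mem F hF =>
    obtain ⟨p, r, hp, hr, h⟩ := hF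
    obtain ⟨p', hp', h1⟩ := act_poly hp U
    obtain ⟨r', hr', h2⟩ := act_poly hr U
    exact Submodule.subset_span ⟨p', r', hp', hr', fun z => by simp only [h, h1, h2]⟩
  | zero => convert Submodule.zero_mem _ using 1; ext z; simp
  | add F F' _ _ hF hF' =>
    convert Submodule.add_mem _ hF hF' using 1
    ext z
    simp
  | smul t F _ hF =>
    convert Submodule.smul_mem _ t hF using 1
    ext z
    simp

lemma hom_act {j k : ℕ} {F : E n → ℂ} (hF : F ∈ Hom n j k)
    (U : Matrix.unitaryGroup (Fin n) ℂ) : (fun z => F (act U z)) ∈ Hom n j k := by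
  induction hF using Submodule.span_induction with
  | mem F hF =>
    obtain ⟨p, r, hp, hr, h⟩ := hF
    obtain ⟨p', hp', h1⟩ := act_poly_hom hp U
    obtain ⟨r', hr', h2⟩ := act_poly_hom hr U
    exact Submodule.subset_span ⟨p', r', hp', hr', fun z => by simp only [h, h1, h2]⟩
  | zero => convert Submodule.zero_mem _ using 1; ext z; simp
  | add F F' _ _ hF hF' =>
    convert Submodule.add_mem _ hF hF' using 1
    ext z
    simp
  | smul t F _ hF =>
    convert Submodule.smul_mem _ t hF using 1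
    ext z
    simp

/-! ## Polarisation -/

lemma ev_line (p : MvPolynomial (Fin n) ℂ) (z u : E n) :
    ∃ a : Polynomial ℂ, ∀ s : ℂ, ev (z + s • u) p = a.eval s := by
  refine ⟨∑ t ∈ p.support, Polynomial.C (coeff t p) *
    ∏ i, (Polynomial.C (z i) + Polynomial.X * Polynomial.C (u i)) ^ t i, fun s => ?_⟩
  rw [ev_eq_sum, Polynomial.eval_finsetSum]
  refine Finset.sum_congr rfl fun t _ => ?_
  simp only [Polynomial.eval_mul, Polynomial.eval_C, Polynomial.eval_prod, Polynomial.eval_pow,
    Polynomial.eval_add, Polynomial.eval_X, PiLp.add_apply, PiLp.smul_apply, smul_eq_mul]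

/-- polarisation: a sum of `p_i(z) conj(r_i(z))` vanishing on the diagonal vanishes -/
theorem polar {ι : Type*} (s : Finset ι) (p r : ι → MvPolynomial (Fin n) ℂ)
    (h : ∀ z : E n, ∑ i ∈ s, ev z (p i) * (starRingEnd ℂ) (ev z (r i)) = 0) (z w : E n) :
    ∑ i ∈ s, ev z (p i) * (starRingEnd ℂ) (ev w (r i)) = 0 := by
  classical
  choose a ha using fun i => ev_line (p i) z (w - z)
  choose b hb using fun i => ev_line (r i) z (w - z)
  set D := ∑ i ∈ s, ((a i).natDegree + (b i).natDegree) with hD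
  have hDa : ∀ i ∈ s, (a i).natDegree < D + 1 ∧ (b i).natDegree < D + 1 := by
    intro i hi
    have := Finset.single_le_sum (f := fun i => (a i).natDegree + (b i).natDegree)
      (fun _ _ => Nat.zero_le _) hi
    omega
  have key : ∀ x y : ℂ, ∑ i ∈ s, (a i).eval x * (starRingEnd ℂ) ((b i).eval y) =
      ∑ j ∈ Finset.range (D + 1), ∑ k ∈ Finset.range (D + 1),
        (∑ i ∈ s, (a i).coeff j * (starRingEnd ℂ) ((b i).coeff k)) * x ^ j *
          (starRingEnd ℂ) y ^ k := by
    intro x y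
    have h1 : ∀ i ∈ s, (a i).eval x * (starRingEnd ℂ) ((b i).eval y) =
        ∑ j ∈ Finset.range (D + 1), ∑ k ∈ Finset.range (D + 1),
          (a i).coeff j * (starRingEnd ℂ) ((b i).coeff k) * x ^ j * (starRingEnd ℂ) y ^ k := by
      intro i hi
      rw [Polynomial.eval_eq_sum_range' (hDa i hi).1, Polynomial.eval_eq_sum_range' (hDa i hi).2,
        map_sum, Finset.sum_mul_sum]
      refine Finset.sum_congr rfl fun j _ => Finset.sum_congr rfl fun k _ => ?_
      rw [map_mul, map_pow]
      ring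
    rw [Finset.sum_congr rfl h1, Finset.sum_comm]
    refine Finset.sum_congr rfl fun j _ => ?_
    rw [Finset.sum_comm]
    refine Finset.sum_congr rfl fun k _ => ?_
    rw [Finset.sum_mul, Finset.sum_mul]
  have hz := pol1 D (fun j k => ∑ i ∈ s, (a i).coeff j * (starRingEnd ℂ) ((b i).coeff k)) 1 one_pos
    (fun x _ => by
      rw [← key x x, ← h (z + x • (w - z))]
      exact Finset.sum_congr rfl fun i _ => by rw [ha, hb])
  have h2 := key 0 1
  have h3 : ∑ j ∈ Finset.range (D + 1), ∑ k ∈ Finset.range (D + 1),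
      (∑ i ∈ s, (a i).coeff j * (starRingEnd ℂ) ((b i).coeff k)) * (0 : ℂ) ^ j *
        (starRingEnd ℂ) 1 ^ k = 0 := by
    refine Finset.sum_eq_zero fun j hj => Finset.sum_eq_zero fun k hk => ?_
    rw [hz j (by simpa [Nat.lt_succ_iff] using hj) k (by simpa [Nat.lt_succ_iff] using hk)]
    simp
  rw [h3] at h2
  rw [← h2]
  refine Finset.sum_congr rfl fun i _ => ?_
  rw [← ha, ← hb]
  simp

end Pool.Agent.H24.RSM
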