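import Pool.Agent.H24.RSM.Src
import Pool.Agent.H24.RSM.Div

/-!
# Rational sphere maps: the lower bound
-/

open MvPolynomial Metric Set

namespace Pool.Agent.H24.RSM

variable {n : ℕ}

lemma act_injective_on_ball {U V : Matrix.unitaryGroup (Fin n) ℂ}
    (h : ∀ z ∈ Bn n, act U z = act V z) : U = V := by
  apply Subtype.ext
  ext i j
  have h1 := h ((1 / 2 : ℂ) • EuclideanSpace.single j 1) (by
    rw [Bn, mem_ball_zero_iff, norm_smul]
    simp
    norm_num)
  rw [act_smul, act_smul] at h1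
  have h2 := smul_right_injective (E n) (show (1 / 2 : ℂ) ≠ 0 by norm_num) h1
  have h3 := congrArg (fun w : E n => w i) h2
  simpa [Pi.single_apply] using h3

lemma defect_mem {N : ℕ} (f : RatSphereMap n N) :
    (fun z => ((f.defect z : ℝ) : ℂ)) ∈ HermPoly n f.degree := by
  have : (fun z => ((f.defect z : ℝ) : ℂ)) =
      (fun z => ev z f.q * (starRingEnd ℂ) (ev z f.q)) -
      ∑ i, fun z => ev z (f.p i) * (starRingEnd ℂ) (ev z (f.p i)) := by
    ext z
    simp only [RatSphereMap.defect, Pi.sub_apply, Finset.sum_apply, Complex.mul_conj,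
      Complex.normSq_eq_norm_sq]
    push_cast
    rfl
  rw [this]
  refine Submodule.sub_mem _ (mem_hermPoly (le_max_right _ _) (le_max_right _ _))
    (Submodule.sum_mem _ fun i _ => mem_hermPoly ?_ ?_)
  all_goals
    exact (Finset.le_sup (f := fun i => (f.p i).totalDegree) (Finset.mem_univ i)).trans
      (le_max_left _ _)

lemma defect_pos {N : ℕ} (f : RatSphereMap n N) {z : E n} (hz : z ∈ Bn n) : 0 < f.defect z := by
  rw [Bn, mem_ball_zero_iff] at hz
  exact sub_pos.2 (f.ball z hz)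

lemma act_pow_smul {N : ℕ} (f : RatSphereMap n N) (g : Matrix.unitaryGroup (Fin n) ℂ) (κ : ℝ)
    (h : ∀ z ∈ Bn n, f.defect (act g z) = κ * f.defect z) (k : ℕ) :
    ∀ z ∈ Bn n, f.defect (act (g ^ k) z) = κ ^ k * f.defect z := by
  induction k with
  | zero => intro z _; simp
  | succ k ih =>
    intro z hz
    rw [pow_succ, act_mul, ih _ (mem_Bn_act hz), h z hz]
    ring

theorem lb (hDiv : DivStmt) (hLow : LowStmt) (hDeg : DegStmt) : LbStmt := by
  intro n N f G hn hfin hG
  have h3 := hDeg n N f G hn hfin hG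
  refine ⟨h3, fun U hU => ?_⟩
  obtain ⟨Q, hQ, hQf⟩ := hDiv n f.degree (fun z => ((f.defect z : ℝ) : ℂ)) hn (by omega)
    (defect_mem f) (fun z hz => by
      have : f.defect z = 0 := by
        unfold RatSphereMap.defect
        rw [f.sphere z hz, sub_self]
      simp only [this, Complex.ofReal_zero])
  -- invariance of the defect under G on the ball
  have h1 : ∀ g ∈ G, ∀ z ∈ Bn n, f.defect (act g z) = f.defect z := by
    intro g hg
    obtain ⟨ψ, hψ, hfψ⟩ := (hG (act g) (act_aut g)).2 ⟨g, hg, fun z _ => rfl⟩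
    obtain ⟨κ, hκ, hlow⟩ := hLow n N f (act g) ψ hn (act_aut g) hψ hfψ
    have h2 : ∀ z ∈ Bn n, f.defect (act g z) = κ * f.defect z := by
      intro z hz
      have := hlow z hz
      rw [norm_act] at this
      rw [Bn, mem_ball_zero_iff] at hz
      have h4 : 0 < 1 - ‖z‖ ^ 2 := by nlinarith [norm_nonneg z]
      have h5 : (1 - ‖z‖ ^ 2) ^ f.degree ≠ 0 := (pow_pos h4 _).ne'
      field_simp at this
      linarith
    have h6 : 0 < orderOf (⟨g, hg⟩ : G) := orderOf_pos _
    have h7 : g ^ orderOf (⟨g, hg⟩ : G) = 1 := by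
      have := pow_orderOf_eq_one (⟨g, hg⟩ : G)
      exact congrArg Subtype.val this
    have h8 := act_pow_smul f g κ h2 (orderOf (⟨g, hg⟩ : G)) 0 Pool.Agent.H15.RSM.zero_mem
    rw [h7, act_one] at h8
    have h9 := defect_pos f (Pool.Agent.H15.RSM.zero_mem (n := n))
    have h10 : κ ^ orderOf (⟨g, hg⟩ : G) = 1 := by
      have : (κ ^ orderOf (⟨g, hg⟩ : G) - 1) * f.defect 0 = 0 := by linarith
      rcases mul_eq_zero.1 this with h | h
      · linarith
      · exact absurd h h9.ne'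
    have h11 : κ = 1 := (pow_eq_one_iff_of_nonneg hκ.le h6.ne').1 h10
    intro z hz
    rw [h2 z hz, h11, one_mul]
  have hQG : ∀ g ∈ G, ∀ z, Q (act g z) = Q z := by
    intro g hg
    have h2 : ∀ z ∈ Bn n, Q (act g z) = Q z := by
      intro z hz
      have h4 := hQf (act g z)
      rw [h1 g hg z hz, hQf z, norm_act] at h4
      rw [Bn, mem_ball_zero_iff] at hz
      have h5 : 0 < 1 - ‖z‖ ^ 2 := by nlinarith [norm_nonneg z]
      have h6 : (((‖z‖ : ℝ) : ℂ)) ^ 2 - 1 ≠ 0 := by
        have : (((‖z‖ : ℝ) : ℂ)) ^ 2 - 1 = ((‖z‖ ^ 2 - 1 : ℝ) : ℂ) := by push_cast; ring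
        rw [this]
        exact_mod_cast (by linarith : ‖z‖ ^ 2 - 1 < 0).ne
      exact (mul_left_cancel₀ h6 h4).symm
    have h6 := idp (Submodule.sub_mem _ (hermPoly_act hQ g) hQ) (fun z hz => by
      simp only [Pi.sub_apply, h2 z hz, sub_self])
    intro z
    exact sub_eq_zero.1 (h6 z)
  have hQU := hU Q hQ hQG
  have hdU : ∀ z, f.defect (act U z) = f.defect z := by
    intro z
    have h4 := hQf (act U z)
    rw [hQU, norm_act, ← hQf z] at h4
    exact_mod_cast h4
  obtain ⟨ψ, hψ, hfψ⟩ := src f U hdU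
  obtain ⟨V, hV, hUV⟩ := (hG (act U) (act_aut U)).1 ⟨ψ, hψ, hfψ⟩
  rw [act_injective_on_ball hUV]
  exact hV

end Pool.Agent.H24.RSM
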