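import Pool.Agent.H24.RSM.Up
import Pool.Agent.H24.RSM.Lb
import Pool.Agent.H26.RSM.DEG
import Pool.Agent.H30.RSM.Cons
import Pool.Agent.H4.RSM.MASA
import Pool.Agent.H4.RSM.NOE
import Pool.Agent.H48.RSM.GEN

/-!
# Rational sphere maps: the main theorem
-/

namespace Pool.Agent.H24.RSM

theorem lowStmt : LowStmt :=
  low Pool.Agent.H67.RSM.inv_ (Pool.Agent.H15.RSM.aut Pool.Agent.H67.RSM.boost Pool.Agent.H67.RSM.inv_
    Pool.Agent.H67.RSM.frac_) Pool.Agent.H67.RSM.frac_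

theorem lbStmt : LbStmt := lb div lowStmt
  (Pool.Agent.H26.RSM.deg div Pool.Agent.H67.RSM.wit Pool.Agent.H67.RSM.frac_)

theorem upStmt : UpStmt := up (gs Pool.Agent.H4.RSM.masa Pool.Agent.H48.RSM.gen)
  Pool.Agent.H30.RSM.con lowStmt

lemma determines_mono {n e e' : ℕ} {G : Subgroup (Matrix.unitaryGroup (Fin n) ℂ)} (h : e ≤ e')
    (hG : Determines G e) : Determines G e' :=
  fun U hU => hG U fun F hF => hU F (hermPoly_mono h hF)

theorem main : FinStmt := by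
  intro n G hn hfin
  have hne : Determines G (max 2 (Nat.card G)) :=
    determines_mono (le_max_right _ _) (Pool.Agent.H4.RSM.noe n G hfin)
  refine ⟨⟨max 2 (Nat.card G), le_max_left _ _, le_rfl, hne⟩, ?_, ?_⟩
  · have h1 : sInf {e | 2 ≤ e ∧ Determines G e} ∈ {e | 2 ≤ e ∧ Determines G e} :=
      Nat.sInf_mem ⟨_, le_max_left _ _, hne⟩
    obtain ⟨N, f, hdeg, hf⟩ := upStmt n _ G hn hfin h1.1 h1.2
    exact ⟨N, f, hf, by rw [hdeg, add_comm]⟩
  · rintro k ⟨N, f, hf, rfl⟩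
    obtain ⟨h3, hdet⟩ := lbStmt n N f G hn hfin hf
    have : sInf {e | 2 ≤ e ∧ Determines G e} ≤ f.degree - 1 :=
      Nat.sInf_le ⟨by omega, hdet⟩
    omega

end Pool.Agent.H24.RSM
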