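import Pool.Agent.H24.RSM.Phi

/-!
# Rational sphere maps: the high order part of a Hermitian polynomial
-/

open MvPolynomial
open scoped Matrix.Norms.L2Operator

namespace Pool.Agent.H24.RSM

variable {n : ℕ}

/-- the functions whose components of bidegree at most `(1,1)` vanish -/
def Nsp (n e : ℕ) : Submodule ℂ (E n → ℂ) :=
  Submodule.span ℂ {F | ∃ j k, j ≤ e ∧ k ≤ e ∧ (2 ≤ j ∨ 2 ≤ k) ∧ F ∈ Hom n j k}

lemma Nsp_le (n e : ℕ) : Nsp n e ≤ HermPoly n e := by
  refine Submodule.span_le.2 ?_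
  rintro F ⟨j, k, hj, hk, _, hF⟩
  exact hom_le hj hk hF

lemma Hom_le_Nsp {e j k : ℕ} (hj : j ≤ e) (hk : k ≤ e) (h : 2 ≤ j ∨ 2 ≤ k) :
    Hom n j k ≤ Nsp n e := fun _ hF => Submodule.subset_span ⟨j, k, hj, hk, h, hF⟩

lemma Nsp_act {e : ℕ} {F : E n → ℂ} (hF : F ∈ Nsp n e) (U : Matrix.unitaryGroup (Fin n) ℂ) :
    (fun z => F (act U z)) ∈ Nsp n e := by
  induction hF using Submodule.span_induction with
  | mem F hF =>
    obtain ⟨j, k, hj, hk, h, hF⟩ := hF
    exact Hom_le_Nsp hj hk h (hom_act hF U)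
  | zero => convert Submodule.zero_mem _ using 1; ext z; simp
  | add F F' _ _ hF hF' =>
    convert Submodule.add_mem _ hF hF' using 1
    ext z
    simp
  | smul t F _ hF =>
    convert Submodule.smul_mem _ t hF using 1
    ext z
    simp

lemma Nsp_conj {e : ℕ} {F : E n → ℂ} (hF : F ∈ Nsp n e) :
    (fun z => (starRingEnd ℂ) (F z)) ∈ Nsp n e := by
  induction hF using Submodule.span_induction with
  | mem F hF =>
    obtain ⟨j, k, hj, hk, h, hF⟩ := hF
    exact Hom_le_Nsp hk hj h.symm (hom_conj hF)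
  | zero => convert Submodule.zero_mem _ using 1; ext z; simp
  | add F F' _ _ hF hF' =>
    convert Submodule.add_mem _ hF hF' using 1
    ext z
    simp
  | smul t F _ hF =>
    convert Submodule.smul_mem _ ((starRingEnd ℂ) t) hF using 1
    ext z
    simp

lemma Nsp_bh {e : ℕ} {F : E n → ℂ} (hF : F ∈ Nsp n e) :
    ∃ c : ℕ → ℕ → (E n → ℂ), (∀ j k, c j k ∈ Hom n j k) ∧ (∀ j k, j ≤ 1 → k ≤ 1 → c j k = 0) ∧
      ∀ z, F z = ∑ j ∈ Finset.range (e + 1), ∑ k ∈ Finset.range (e + 1), c j k z := by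
  classical
  induction hF using Submodule.span_induction with
  | mem F hF =>
    obtain ⟨j₀, k₀, hj, hk, h, hF⟩ := hF
    refine ⟨fun j k => if j = j₀ ∧ k = k₀ then F else 0, fun j k => ?_, fun j k hj1 hk1 => ?_,
      fun z => ?_⟩
    · dsimp only
      split_ifs with hjk
      · rw [hjk.1, hjk.2]; exact hF
      · exact (Hom n j k).zero_mem
    · dsimp only
      rw [if_neg]
      rintro ⟨rfl, rfl⟩
      omega
    · rw [Finset.sum_eq_single j₀, Finset.sum_eq_single k₀]
      · simp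
      · intro k _ hk'
        dsimp only
        rw [if_neg (fun h => hk' h.2)]
        rfl
      · intro h'
        exact absurd (Finset.mem_range.2 (by omega)) h'
      · intro j _ hj'
        refine Finset.sum_eq_zero fun k _ => ?_
        dsimp only
        rw [if_neg (fun h => hj' h.1)]
        rfl
      · intro h'
        exact absurd (Finset.mem_range.2 (by omega)) h'
  | zero => exact ⟨fun _ _ => 0, fun j k => (Hom n j k).zero_mem, fun _ _ _ _ => rfl,
      fun z => by simp⟩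
  | add F G _ _ hF hG =>
    obtain ⟨c, hc, hc0, h⟩ := hF
    obtain ⟨d, hd, hd0, h'⟩ := hG
    refine ⟨fun j k => c j k + d j k, fun j k => (Hom n j k).add_mem (hc j k) (hd j k),
      fun j k hj hk => by simp only [hc0 j k hj hk, hd0 j k hj hk, add_zero], fun z => ?_⟩
    simp only [Pi.add_apply, h, h', Finset.sum_add_distrib]
  | smul a F _ hF =>
    obtain ⟨c, hc, hc0, h⟩ := hF
    refine ⟨fun j k => a • c j k, fun j k => (Hom n j k).smul_mem a (hc j k),
      fun j k hj hk => by simp only [hc0 j k hj hk, smul_zero], fun z => ?_⟩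
    simp only [Pi.smul_apply, smul_eq_mul, h, Finset.mul_sum]

lemma low_bh {e : ℕ} (he : 1 ≤ e) {F : E n → ℂ} (hF : F ∈ HermPoly n 1) :
    ∃ c : ℕ → ℕ → (E n → ℂ), (∀ j k, c j k ∈ Hom n j k) ∧
      (∀ j k, 2 ≤ j ∨ 2 ≤ k → c j k = 0) ∧
      ∀ z, F z = ∑ j ∈ Finset.range (e + 1), ∑ k ∈ Finset.range (e + 1), c j k z := by
  classical
  obtain ⟨c, hc, h⟩ := bh hF
  refine ⟨fun j k => if j ≤ 1 ∧ k ≤ 1 then c j k else 0, fun j k => ?_, fun j k hjk => ?_,
    fun z => ?_⟩
  · dsimp only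
    split_ifs
    · exact hc j k
    · exact (Hom n j k).zero_mem
  · dsimp only
    rw [if_neg]
    omega
  · rw [h]
    have hsub : Finset.range (1 + 1) ⊆ Finset.range (e + 1) := by
      intro j hj
      rw [Finset.mem_range] at *
      omega
    rw [← Finset.sum_subset hsub]
    · refine Finset.sum_congr rfl fun j hj => ?_
      rw [← Finset.sum_subset hsub]
      · refine Finset.sum_congr rfl fun k hk => ?_
        rw [Finset.mem_range] at hj hk
        dsimp only
        rw [if_pos ⟨by omega, by omega⟩]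
      · intro k _ hk
        rw [Finset.mem_range] at hk
        dsimp only
        rw [if_neg (by omega)]
        rfl
    · intro j _ hj
      rw [Finset.mem_range] at hj
      refine Finset.sum_eq_zero fun k _ => ?_
      dsimp only
      rw [if_neg (by omega)]
      rfl

/-- the low order part and the high order part are independent -/
lemma split_unique {e : ℕ} (he : 1 ≤ e) {L N : E n → ℂ} (hL : L ∈ HermPoly n 1)
    (hN : N ∈ Nsp n e) (h : ∀ z, L z + N z = 0) : (∀ z, L z = 0) ∧ ∀ z, N z = 0 := by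
  obtain ⟨c, hc, hc0, hLc⟩ := low_bh he hL
  obtain ⟨d, hd, hd0, hNd⟩ := Nsp_bh hN
  have key := bh_unique (e := e) (c := fun j k => c j k + d j k)
    (fun j k => (Hom n j k).add_mem (hc j k) (hd j k)) (fun z _ => by
      simp only [Pi.add_apply, Finset.sum_add_distrib]
      rw [← hLc, ← hNd, h])
  have hL0 : ∀ z, L z = 0 := by
    intro z
    rw [hLc]
    refine Finset.sum_eq_zero fun j hj => Finset.sum_eq_zero fun k hk => ?_
    rw [Finset.mem_range] at hj hk
    by_cases hjk : 2 ≤ j ∨ 2 ≤ k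
    · rw [hc0 j k hjk]; rfl
    · have := key j (by omega) k (by omega) z
      simp only [Pi.add_apply] at this
      rw [hd0 j k (by omega) (by omega)] at this
      simpa using this
  exact ⟨hL0, fun z => by have := h z; rwa [hL0, zero_add] at this⟩

/-- decomposition into constant, low order and high order parts -/
lemma split {e : ℕ} (he : 2 ≤ e) {F : E n → ℂ} (hF : F ∈ HermPoly n e) :
    ∃ (a : ℂ) (L N : E n → ℂ), L ∈ HermPoly n 1 ∧ N ∈ Nsp n e ∧
      (fun z => (((‖z‖ : ℝ) : ℂ)) ^ 2 * L z) ∈ Nsp n e ∧ ∀ z, F z = (a + L z) + N z := by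
  classical
  obtain ⟨c, hc, h⟩ := bh hF
  have h00 : ∃ a : ℂ, ∀ z, c 0 0 z = a := ⟨c 0 0 0, fun z => by
    have := hom_smul (hc 0 0) 0 z
    simpa using this.symm⟩
  obtain ⟨a, ha⟩ := h00
  refine ⟨a, fun z => c 0 1 z + c 1 0 z + c 1 1 z, fun z => F z - (a + (c 0 1 z + c 1 0 z +
    c 1 1 z)), ?_, ?_, ?_, fun z => by ring⟩
  · exact Submodule.add_mem _ (Submodule.add_mem _ (hom_le (by omega) (by omega) (hc 0 1))
      (hom_le (by omega) (by omega) (hc 1 0))) (hom_le (by omega) (by omega) (hc 1 1))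
  · have : (fun z => F z - (a + (c 0 1 z + c 1 0 z + c 1 1 z))) =
        ∑ j ∈ Finset.range (e + 1), ∑ k ∈ Finset.range (e + 1),
          (if j ≤ 1 ∧ k ≤ 1 then 0 else c j k) := by
      ext z
      rw [h, Finset.sum_apply]
      simp only [Finset.sum_apply]
      obtain ⟨e', rfl⟩ : ∃ e', e = e' + 1 := ⟨e - 1, by omega⟩
      have hterm : ∀ j k, (if j ≤ 1 ∧ k ≤ 1 then (0 : E n → ℂ) else c j k) z =
          c j k z - (if j ≤ 1 ∧ k ≤ 1 then c j k z else 0) := by
        intro j k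
        split_ifs <;> simp
      simp only [hterm, Finset.sum_sub_distrib]
      congr 1
      have hsub : Finset.range 2 ⊆ Finset.range (e' + 1 + 1) := by
        intro j hj
        rw [Finset.mem_range] at *
        omega
      rw [← Finset.sum_subset hsub]
      · have h2 : ∀ j ∈ Finset.range 2, ∑ k ∈ Finset.range (e' + 1 + 1),
            (if j ≤ 1 ∧ k ≤ 1 then c j k z else 0) = ∑ k ∈ Finset.range 2, c j k z := by
          intro j hj
          rw [Finset.mem_range] at hj
          rw [← Finset.sum_subset hsub]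
          · refine Finset.sum_congr rfl fun k hk => ?_
            rw [Finset.mem_range] at hk
            rw [if_pos ⟨by omega, by omega⟩]
          · intro k _ hk
            rw [Finset.mem_range] at hk
            rw [if_neg (by omega)]
        rw [Finset.sum_congr rfl h2]
        simp only [Finset.sum_range_succ, Finset.sum_range_zero, zero_add, ha]
        ring
      · intro j _ hj
        rw [Finset.mem_range] at hj
        refine Finset.sum_eq_zero fun k _ => ?_
        rw [if_neg (by omega)]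
    rw [this]
    refine Submodule.sum_mem _ fun j hj => Submodule.sum_mem _ fun k hk => ?_
    rw [Finset.mem_range] at hj hk
    split_ifs with hjk
    · exact Submodule.zero_mem _
    · exact Hom_le_Nsp (by omega) (by omega) (by omega) (hc j k)
  · have : (fun z : E n => (((‖z‖ : ℝ) : ℂ)) ^ 2 * (c 0 1 z + c 1 0 z + c 1 1 z)) =
        (fun z : E n => (((‖z‖ : ℝ) : ℂ)) ^ 2 * c 0 1 z) +
        (fun z : E n => (((‖z‖ : ℝ) : ℂ)) ^ 2 * c 1 0 z) +
        (fun z : E n => (((‖z‖ : ℝ) : ℂ)) ^ 2 * c 1 1 z) := by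
      ext z
      simp only [Pi.add_apply]
      ring
    rw [this]
    refine Submodule.add_mem _ (Submodule.add_mem _ ?_ ?_) ?_
    · exact Hom_le_Nsp (by omega) (by omega) (by omega) (hom_mul normSq_mem_hom (hc 0 1))
    · exact Hom_le_Nsp (by omega) (by omega) (by omega) (hom_mul normSq_mem_hom (hc 1 0))
    · exact Hom_le_Nsp (by omega) (by omega) (by omega) (hom_mul normSq_mem_hom (hc 1 1))

/-- a bihomogeneous function is bounded by a power of the norm -/
lemma Hom_bound {j k : ℕ} (hjk : 2 ≤ j + k) {F : E n → ℂ} (hF : F ∈ Hom n j k) :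
    ∃ C : ℝ, 0 ≤ C ∧ ∀ z ∈ Bn n, ‖F z‖ ≤ C * ‖z‖ ^ 2 := by
  have hcont : Continuous F := continuous_of_mem (hom_le (le_max_left j k) (le_max_right j k) hF)
  obtain ⟨C, hC⟩ := (isCompact_closedBall (0 : E n) 1).exists_bound_of_continuousOn
    hcont.continuousOn
  have hC0 : 0 ≤ C := (norm_nonneg _).trans (hC 0 (by simp))
  refine ⟨C, hC0, fun z hz => ?_⟩
  rw [Bn, mem_ball_zero_iff] at hz
  rcases eq_or_ne z 0 with rfl | hz0
  · have := hom_smul hF 0 0
    rw [smul_zero] at this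
    rw [this]
    have h0 : (0 : ℂ) ^ j * (starRingEnd ℂ) 0 ^ k = 0 := by
      rw [map_zero, ← pow_add]
      exact zero_pow (by omega)
    rw [h0, zero_mul]
    simp
  · have hr0 : 0 < ‖z‖ := norm_pos_iff.2 hz0
    have hzy : z = ((‖z‖ : ℝ) : ℂ) • (((‖z‖ : ℝ) : ℂ)⁻¹ • z) := by
      rw [smul_smul, mul_inv_cancel₀ (by exact_mod_cast hr0.ne'), one_smul]
    have hy : ‖(((‖z‖ : ℝ) : ℂ)⁻¹ • z)‖ = 1 := by
      rw [norm_smul, norm_inv, Complex.norm_real, Real.norm_of_nonneg hr0.le,
        inv_mul_cancel₀ hr0.ne']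
    have h1 : F z = ((‖z‖ : ℝ) : ℂ) ^ j * ((‖z‖ : ℝ) : ℂ) ^ k * F (((‖z‖ : ℝ) : ℂ)⁻¹ • z) := by
      conv_lhs => rw [hzy]
      rw [hom_smul hF, Complex.conj_ofReal]
    rw [h1, norm_mul, norm_mul, norm_pow, norm_pow, Complex.norm_real,
      Real.norm_of_nonneg hr0.le, ← pow_add]
    have h2 := hC _ (by rw [mem_closedBall_zero_iff]; exact hy.le)
    have h3 : ‖z‖ ^ (j + k) ≤ ‖z‖ ^ 2 := pow_le_pow_of_le_one hr0.le hz.le hjk
    calc ‖z‖ ^ (j + k) * ‖F (((‖z‖ : ℝ) : ℂ)⁻¹ • z)‖ ≤ ‖z‖ ^ 2 * C :=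
          mul_le_mul h3 h2 (norm_nonneg _) (by positivity)
      _ = C * ‖z‖ ^ 2 := mul_comm _ _

lemma Nsp_bound {e : ℕ} {F : E n → ℂ} (hF : F ∈ Nsp n e) :
    ∃ C : ℝ, 0 ≤ C ∧ ∀ z ∈ Bn n, ‖F z‖ ≤ C * ‖z‖ ^ 2 := by
  induction hF using Submodule.span_induction with
  | mem F hF =>
    obtain ⟨j, k, hj, hk, h, hF⟩ := hF
    exact Hom_bound (by omega) hF
  | zero => exact ⟨0, le_rfl, fun z _ => by simp⟩
  | add F F' _ _ hF hF' =>
    obtain ⟨C, hC0, hC⟩ := hF
    obtain ⟨C', hC0', hC'⟩ := hF'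
    refine ⟨C + C', by positivity, fun z hz => ?_⟩
    have := norm_add_le (F z) (F' z)
    have h1 := hC z hz
    have h2 := hC' z hz
    simp only [Pi.add_apply]
    linarith
  | smul t F _ hF =>
    obtain ⟨C, hC0, hC⟩ := hF
    refine ⟨‖t‖ * C, by positivity, fun z hz => ?_⟩
    have h1 := hC z hz
    simp only [Pi.smul_apply, smul_eq_mul, norm_mul]
    calc ‖t‖ * ‖F z‖ ≤ ‖t‖ * (C * ‖z‖ ^ 2) := by gcongr
      _ = _ := by ring

end Pool.Agent.H24.RSM
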