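import Pool.Agent.H24.RSM.Words

/-!
# Rational sphere maps: Hermitian polynomials as vectors of the representation space
-/

open MvPolynomial
open scoped Matrix.Norms.L2Operator

namespace Pool.Agent.H24.RSM

variable {n : ℕ}

/-- monomials of degree at most `d` are words of length `d` -/
lemma monomial_word (d : ℕ) : ∀ t : Fin n → ℕ, ∑ i, t i ≤ d →
    ∃ a : Fin d → O n, ∀ z : E n, ∏ i, z i ^ t i = ∏ i, hat z (a i) := by
  induction d with
  | zero =>
    intro t ht
    refine ⟨Fin.elim0, fun z => ?_⟩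
    have : ∀ i, t i = 0 := fun i => by
      have := Finset.single_le_sum (f := t) (fun _ _ => Nat.zero_le _) (Finset.mem_univ i)
      omega
    simp [this]
  | succ d ih =>
    intro t ht
    by_cases h0 : ∀ i, t i = 0
    · exact ⟨fun _ => none, fun z => by simp [h0, hat]⟩
    · push Not at h0
      obtain ⟨i, hi⟩ := h0
      have h1 : ∑ j, (if j = i then t j - 1 else t j) ≤ d := by
        have h2 : ∑ j, t j = ∑ j, (if j = i then t j - 1 else t j) + 1 := by
          rw [← Finset.add_sum_erase _ _ (Finset.mem_univ i),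
            ← Finset.add_sum_erase (a := i) (f := fun j => if j = i then t j - 1 else t j) _
              (Finset.mem_univ i)]
          have : ∑ j ∈ Finset.univ.erase i, (if j = i then t j - 1 else t j) =
              ∑ j ∈ Finset.univ.erase i, t j :=
            Finset.sum_congr rfl fun j hj => if_neg (Finset.ne_of_mem_erase hj)
          rw [this]
          simp
          omega
        omega
      obtain ⟨a, ha⟩ := ih _ h1
      refine ⟨Fin.cons (some i) a, fun z => ?_⟩
      rw [Fin.prod_univ_succ, Fin.cons_zero]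
      simp only [Fin.cons_succ]
      rw [← ha z, ← Finset.mul_prod_erase _ _ (Finset.mem_univ i),
        ← Finset.mul_prod_erase (a := i) (f := fun j => z j ^ (if j = i then t j - 1 else t j)) _
          (Finset.mem_univ i)]
      have : ∏ j ∈ Finset.univ.erase i, z j ^ (if j = i then t j - 1 else t j) =
          ∏ j ∈ Finset.univ.erase i, z j ^ t j :=
        Finset.prod_congr rfl fun j hj => by rw [if_neg (Finset.ne_of_mem_erase hj)]
      rw [this, if_pos rfl, ← mul_assoc]
      congr 1
      show z i ^ t i = z i * z i ^ (t i - 1)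
      rw [← pow_succ']
      congr 1
      omega

lemma word_span {d : ℕ} {p : MvPolynomial (Fin n) ℂ} (hp : p.totalDegree ≤ d) :
    ∃ c : (Fin d → O n) → ℂ, ∀ z : E n, ev z p = ∑ a, c a * ∏ i, hat z (a i) := by
  classical
  have h1 : ∀ t ∈ p.support, ∃ a : Fin d → O n, ∀ z : E n, ∏ i, z i ^ t i = ∏ i, hat z (a i) :=
    fun t ht => monomial_word d t ((sum_le_totalDegree ht).trans hp)
  choose! A hA using h1
  refine ⟨fun a => ∑ t ∈ p.support, if A t = a then coeff t p else 0, fun z => ?_⟩
  rw [ev_eq_sum]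
  simp only [Finset.sum_mul, ite_mul, zero_mul]
  rw [Finset.sum_comm]
  refine Finset.sum_congr rfl fun t ht => ?_
  rw [Finset.sum_ite_eq Finset.univ (A t)]
  simp [hA t ht]

/-- letters as polynomials -/
noncomputable def hatP : O n → MvPolynomial (Fin n) ℂ
  | none => 1
  | some i => X i

/-- words as polynomials -/
noncomputable def wpoly {d : ℕ} (a : Fin d → O n) : MvPolynomial (Fin n) ℂ := ∏ i, hatP (a i)

lemma ev_hatP (z : E n) (a : O n) : ev z (hatP a) = hat z a := by
  rcases a with _ | a <;> simp [hatP, hat]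

lemma ev_wpoly {d : ℕ} (z : E n) (a : Fin d → O n) : ev z (wpoly a) = ∏ i, hat z (a i) := by
  simp [wpoly, ev_hatP]

lemma wpoly_totalDegree {d : ℕ} (a : Fin d → O n) : (wpoly a).totalDegree ≤ d := by
  refine (totalDegree_finsetProd _ _).trans ?_
  calc ∑ i : Fin d, (hatP (a i)).totalDegree ≤ ∑ _i : Fin d, 1 := by
        refine Finset.sum_le_sum fun i _ => ?_
        rcases a i with _ | j <;> simp [hatP]
    _ = d := by simp

/-- the Hermitian polynomial of a vector -/
noncomputable def Phi (e : ℕ) : Wsp n e →ₗ[ℂ] (E n → ℂ) where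
  toFun B z := inner ℂ (Vv e z) B
  map_add' B C := by ext z; simp [inner_add_right]
  map_smul' a B := by ext z; simp [inner_smul_right]

lemma Phi_apply (e : ℕ) (B : Wsp n e) (z : E n) : Phi e B z = ∑ p, B p *
    ((∏ i, hat z (p i).1) * (starRingEnd ℂ) (∏ i, hat z (p i).2)) := by
  show inner ℂ (Vv e z) B = _
  rw [PiLp.inner_apply]
  refine Finset.sum_congr rfl fun p _ => ?_
  simp only [Vv, RCLike.inner_apply, map_prod, map_mul, Complex.conj_conj,
    Finset.prod_mul_distrib]

lemma Phi_mem (e : ℕ) (B : Wsp n e) : Phi e B ∈ HermPoly n e := by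
  have : Phi e B = ∑ p, B p • fun z : E n =>
      ev z (wpoly fun i => (p i).1) * (starRingEnd ℂ) (ev z (wpoly fun i => (p i).2)) := by
    ext z
    rw [Phi_apply, Finset.sum_apply]
    refine Finset.sum_congr rfl fun p _ => ?_
    simp only [Pi.smul_apply, smul_eq_mul, ev_wpoly]
  rw [this]
  exact Submodule.sum_mem _ fun p _ => Submodule.smul_mem _ _
    (mem_hermPoly (wpoly_totalDegree _) (wpoly_totalDegree _))

lemma Phi_surj {e : ℕ} {F : E n → ℂ} (hF : F ∈ HermPoly n e) : ∃ B : Wsp n e, Phi e B = F := by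
  have : HermPoly n e ≤ LinearMap.range (Phi (n := n) e) := by
    refine Submodule.span_le.2 ?_
    rintro F ⟨p, r, hp, hr, h⟩
    obtain ⟨c, hc⟩ := word_span hp
    obtain ⟨c', hc'⟩ := word_span hr
    refine ⟨WithLp.toLp 2 fun q => c (fun i => (q i).1) * (starRingEnd ℂ) (c' fun i => (q i).2),
      ?_⟩
    ext z
    rw [Phi_apply, h, hc, hc', map_sum, Finset.sum_mul_sum, ← Finset.sum_product']
    refine Fintype.sum_equiv (Equiv.arrowProdEquivProdArrow (Fin e) (fun _ => O n)
      (fun _ => O n)) _ _ fun q => ?_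
    simp only [Equiv.arrowProdEquivProdArrow, Equiv.coe_fn_mk, map_mul]
    ring
  exact this hF

/-- the span of the generating vectors -/
noncomputable def Ysp (n e : ℕ) : Submodule ℂ (Wsp n e) := Submodule.span ℂ (Set.range (Vv e))

lemma Phi_inj {e : ℕ} {B : Wsp n e} (hB : B ∈ Ysp n e) (h : ∀ z, Phi e B z = 0) : B = 0 := by
  have h1 : ∀ v ∈ Ysp n e, inner ℂ v B = 0 := by
    intro v hv
    induction hv using Submodule.span_induction with
    | mem v hv =>
      obtain ⟨z, rfl⟩ := hv
      exact h z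
    | zero => simp
    | add v w _ _ hv hw => rw [inner_add_left, hv, hw, add_zero]
    | smul a v _ hv => rw [inner_smul_left, hv, mul_zero]
  exact inner_self_eq_zero.1 (h1 B hB)

lemma Phi_surj_Y {e : ℕ} {F : E n → ℂ} (hF : F ∈ HermPoly n e) :
    ∃ B ∈ Ysp n e, Phi e B = F := by
  obtain ⟨B, hB⟩ := Phi_surj hF
  obtain ⟨y, hy, w, hw, h⟩ := (Ysp n e).exists_add_mem_mem_orthogonal B
  refine ⟨y, hy, ?_⟩
  rw [← hB]
  ext z
  show inner ℂ (Vv e z) y = inner ℂ (Vv e z) B
  rw [h, inner_add_right, hw (Vv e z) (Submodule.subset_span ⟨z, rfl⟩), add_zero]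

lemma rep_mem_Y {e : ℕ} (U : Matrix.unitaryGroup (Fin n) ℂ) {B : Wsp n e} (hB : B ∈ Ysp n e) :
    rep e (U : Matrix (Fin n) (Fin n) ℂ) B ∈ Ysp n e := by
  induction hB using Submodule.span_induction with
  | mem v hv =>
    obtain ⟨z, rfl⟩ := hv
    rw [rep_V]
    exact Submodule.subset_span ⟨_, rfl⟩
  | zero => rw [map_zero]; exact Submodule.zero_mem _
  | add v w _ _ hv hw => rw [map_add]; exact Submodule.add_mem _ hv hw
  | smul a v _ hv => rw [map_smul]; exact Submodule.smul_mem _ _ hv

lemma Phi_rep {e : ℕ} (U : Matrix.unitaryGroup (Fin n) ℂ) (B : Wsp n e) (z : E n) :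
    Phi e (rep e (U : Matrix (Fin n) (Fin n) ℂ) B) z = Phi e B (act U⁻¹ z) := inner_rep e U z B

/-- invariance of the function and of the vector are equivalent -/
lemma rep_eq_iff {e : ℕ} (U : Matrix.unitaryGroup (Fin n) ℂ) {B : Wsp n e} (hB : B ∈ Ysp n e) :
    rep e (U : Matrix (Fin n) (Fin n) ℂ) B = B ↔ ∀ z, Phi e B (act U z) = Phi e B z := by
  constructor
  · intro h z
    have := Phi_rep U B (act U z)
    rw [h, act_inv_act] at this
    exact this
  · intro h
    have h1 : rep e (U : Matrix (Fin n) (Fin n) ℂ) B - B = 0 := by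
      refine Phi_inj (Submodule.sub_mem _ (rep_mem_Y U hB) hB) fun z => ?_
      rw [map_sub, Pi.sub_apply, Phi_rep, ← h (act U⁻¹ z), act_act_inv, sub_self]
    exact sub_eq_zero.1 h1

end Pool.Agent.H24.RSM
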