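import Pool.Agent.H24.RSM.HP
import Pool.Agent.H15.RSM.Aut
import Pool.Agent.H67.RSM.BIF
import Pool.Agent.H67.RSM.WIT
import Pool.Agent.H97.RSM.LOW

/-!
# Rational sphere maps: unitary symmetries
-/

open MvPolynomial Metric Set

namespace Pool.Agent.H24.RSM

variable {n : ℕ}

lemma differentiable_act (U : Matrix.unitaryGroup (Fin n) ℂ) :
    Differentiable ℂ (act U : E n → E n) := by
  have : (act U : E n → E n) =
      ({ toFun := act U, map_add' := act_add U, map_smul' := fun s z => act_smul U s z } :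
        E n →ₗ[ℂ] E n) := rfl
  rw [this]
  exact (LinearMap.toContinuousLinearMap _).differentiable

lemma mem_Bn_act {U : Matrix.unitaryGroup (Fin n) ℂ} {z : E n} (hz : z ∈ Bn n) :
    act U z ∈ Bn n := by
  rw [Bn, mem_ball_zero_iff] at *
  rwa [norm_act]

/-- unitary maps are automorphisms of the ball -/
theorem act_aut (U : Matrix.unitaryGroup (Fin n) ℂ) : IsBallAut n (act U) :=
  ⟨(differentiable_act U).differentiableOn, fun _ hz => mem_Bn_act hz, act U⁻¹,
    (differentiable_act U⁻¹).differentiableOn, fun _ hz => mem_Bn_act hz,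
    fun z _ => act_inv_act U z, fun z _ => act_act_inv U z⟩

/-- automorphisms fixing the origin are unitary -/
theorem fix_zero {γ : E n → E n} (h : IsBallAut n γ) (h0 : γ 0 = 0) :
    ∃ U : Matrix.unitaryGroup (Fin n) ℂ, ∀ z ∈ Bn n, γ z = act U z := by
  obtain ⟨hd, hm, δ, hδd, hδm, hδγ, hγδ⟩ := h
  have hδ0 : δ 0 = 0 := by
    have := hδγ 0 Pool.Agent.H15.RSM.zero_mem
    rwa [h0] at this
  set T : E n →L[ℂ] E n := fderiv ℂ γ 0 with hT
  have hlin : ∀ z ∈ Bn n, γ z = T z := fun z hz =>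
    Pool.Agent.H15.RSM.lin hd hm hδd hδm hδγ h0 hδ0 hz
  have hnorm : ∀ z ∈ Bn n, ‖T z‖ = ‖z‖ := fun z hz => by
    rw [← hlin z hz]
    exact Pool.Agent.H15.RSM.norm_eq hd hm hδd hδm hδγ h0 hδ0 hz
  have hnorm' : ∀ z, ‖T z‖ = ‖z‖ := by
    intro z
    have h1 : ((2 * (‖z‖ + 1) : ℝ) : ℂ) ≠ 0 := by
      exact_mod_cast (by positivity : (2 * (‖z‖ + 1) : ℝ) ≠ 0)
    have h2 : (((2 * (‖z‖ + 1) : ℝ) : ℂ)⁻¹ • z) ∈ Bn n := by
      rw [Bn, mem_ball_zero_iff, norm_smul, norm_inv, Complex.norm_real,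
        Real.norm_of_nonneg (by positivity), inv_mul_lt_iff₀ (by positivity)]
      linarith [norm_nonneg z]
    have h3 := hnorm _ h2
    rw [map_smul, norm_smul, norm_smul] at h3
    exact mul_left_cancel₀ (norm_ne_zero_iff.2 (inv_ne_zero h1)) h3
  let L : E n →ₗᵢ[ℂ] E n := ⟨T, hnorm'⟩
  have hLT : ∀ z, L z = T z := fun _ => rfl
  let A : Matrix (Fin n) (Fin n) ℂ := Matrix.of fun i j => T (EuclideanSpace.single j 1) i
  have hA : A ∈ Matrix.unitaryGroup (Fin n) ℂ := by
    rw [Matrix.mem_unitaryGroup_iff']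
    ext i j
    rw [Matrix.mul_apply]
    have h1 : inner ℂ (L (EuclideanSpace.single i 1)) (L (EuclideanSpace.single j 1)) =
        inner ℂ (EuclideanSpace.single i (1 : ℂ)) (EuclideanSpace.single j (1 : ℂ)) :=
      L.inner_map_map _ _
    rw [PiLp.inner_apply] at h1
    have h2 : (1 : Matrix (Fin n) (Fin n) ℂ) i j =
        inner ℂ (EuclideanSpace.single i (1 : ℂ)) (EuclideanSpace.single j (1 : ℂ)) := by
      rw [EuclideanSpace.inner_single_left]
      simp [Matrix.one_apply, Pi.single_apply, eq_comm]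
    rw [h2, ← h1]
    refine Finset.sum_congr rfl fun k _ => ?_
    rw [Matrix.star_apply]
    simp only [A, Matrix.of_apply, hLT, RCLike.inner_apply, Complex.star_def]
    ring
  refine ⟨⟨A, hA⟩, fun z hz => ?_⟩
  rw [hlin z hz]
  ext i
  rw [act_apply]
  have h3 : z = ∑ j, z j • EuclideanSpace.single j (1 : ℂ) := by
    ext i
    simp [Finset.sum_apply, Pi.single_apply]
  conv_lhs => rw [h3, map_sum]
  simp only [map_smul]
  rw [show (∑ x, z x • T (EuclideanSpace.single x 1)) i =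
    ∑ x, (z x • T (EuclideanSpace.single x 1)) i from by
      simp [Finset.sum_apply]]
  refine Finset.sum_congr rfl fun j _ => ?_
  simp only [A, Matrix.of_apply, PiLp.smul_apply, smul_eq_mul]
  ring

/-- unitary symmetries of the defect belong to the source group -/
theorem src {N : ℕ} (f : RatSphereMap n N) (U : Matrix.unitaryGroup (Fin n) ℂ)
    (h : ∀ z, f.defect (act U z) = f.defect z) :
    ∃ ψ : E N → E N, IsBallAut N ψ ∧ ∀ z ∈ Bn n, f.toFun (act U z) = ψ (f.toFun z) := by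
  choose p₁ _ hp₁ using fun i => act_poly (le_refl (f.p i).totalDegree) U
  obtain ⟨q₁, _, hq₁⟩ := act_poly (le_refl f.q.totalDegree) U
  obtain ⟨M, hM, hMz⟩ := Pool.Agent.H67.RSM.wit n N p₁ f.p q₁ f.q (fun z => by
      simp only [hp₁, hq₁]
      have := h z
      unfold RatSphereMap.defect at this
      linarith) (by
      simp only [hp₁, hq₁, act_zero]
      exact f.ball 0 (by simp))
  refine ⟨frac M, (Pool.Agent.H67.RSM.frac_ N M hM).2, fun z hz => ?_⟩
  rw [Bn, mem_ball_zero_iff] at hz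
  have hq : ev z f.q ≠ 0 := f.q_ne z hz.le
  have h1 : (f.toFun z, (1 : ℂ)) = (ev z f.q)⁻¹ • (vec f.p z, ev z f.q) := by
    refine Prod.ext ?_ ?_
    · ext i
      simp [RatSphereMap.toFun, vec, div_eq_inv_mul]
    · simp [hq]
  unfold frac
  rw [h1, map_smul, hMz]
  ext i
  simp only [RatSphereMap.toFun, vec, Prod.smul_fst, Prod.smul_snd, PiLp.smul_apply, smul_eq_mul,
    hp₁, hq₁]
  field_simp

end Pool.Agent.H24.RSM
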