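import Pool.Agent.H24.RSM.Defs

/-!
# Rational sphere maps: statements of the modules
-/

open MvPolynomial
open scoped Matrix.Norms.L2Operator

namespace Pool.Agent.H24.RSM

/-- `M` preserves the form `‖x‖² - |s|²` on `ℂ^n × ℂ` (an element of `U(n,1)`). -/
def IsJ {n : ℕ} (M : (E n × ℂ) →ₗ[ℂ] (E n × ℂ)) : Prop :=
  ∀ x, ‖(M x).1‖ ^ 2 - ‖(M x).2‖ ^ 2 = ‖x.1‖ ^ 2 - ‖x.2‖ ^ 2

/-- The linear fractional map given by `M`. -/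
noncomputable def frac {n : ℕ} (M : (E n × ℂ) →ₗ[ℂ] (E n × ℂ)) (z : E n) : E n :=
  ((M (z, 1)).2)⁻¹ • (M (z, 1)).1

/-- The vector of values of a family of polynomials. -/
noncomputable def vec {n N : ℕ} (p : Fin N → MvPolynomial (Fin n) ℂ) (z : E n) : E N :=
  WithLp.toLp 2 (fun i => ev z (p i))

/-- `|q|² - ‖p‖²`. -/
noncomputable def RatSphereMap.defect {n N : ℕ} (f : RatSphereMap n N) (z : E n) : ℝ :=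
  ‖ev z f.q‖ ^ 2 - ∑ i, ‖ev z (f.p i)‖ ^ 2

/-- The radial polynomial `Σ_{j ≤ e} 2^(e-j) (1+‖z‖²)^j`. -/
noncomputable def Q0 (n e : ℕ) (z : E n) : ℝ :=
  ∑ j ∈ Finset.range (e + 1), 2 ^ (e - j) * (1 + ‖z‖ ^ 2) ^ j

/-- Span of the products `p · conj r` with `p`, `r` homogeneous of degrees `j`, `k`. -/
def Hom (n j k : ℕ) : Submodule ℂ (E n → ℂ) :=
  Submodule.span ℂ {F | ∃ p r : MvPolynomial (Fin n) ℂ, p.IsHomogeneous j ∧ r.IsHomogeneous k ∧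
    ∀ z, F z = ev z p * (starRingEnd ℂ) (ev z r)}

/-! ## Automorphisms of the ball -/

/-- BOOST -/
def BoostStmt : Prop := ∀ (n : ℕ) (x : E n × ℂ), ‖x.1‖ < ‖x.2‖ →
  ∃ M : (E n × ℂ) →ₗ[ℂ] (E n × ℂ), IsJ M ∧ (M x).1 = 0

/-- INV -/
def InvStmt : Prop := ∀ (n : ℕ) (M : (E n × ℂ) →ₗ[ℂ] (E n × ℂ)), IsJ M →
  ∃ M' : (E n × ℂ) →ₗ[ℂ] (E n × ℂ), IsJ M' ∧ (∀ x, M' (M x) = x) ∧ ∀ x, M (M' x) = x

/-- FRAC -/
def FracStmt : Prop := ∀ (n : ℕ) (M : (E n × ℂ) →ₗ[ℂ] (E n × ℂ)), IsJ M →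
  (∀ z ∈ Bn n, (M (z, 1)).2 ≠ 0 ∧
    1 - ‖frac M z‖ ^ 2 = (1 - ‖z‖ ^ 2) / ‖(M (z, 1)).2‖ ^ 2) ∧ IsBallAut n (frac M)

/-- AUT (uses BOOST, FRAC): every automorphism of the ball is linear fractional. -/
def AutStmt : Prop := ∀ (n : ℕ) (γ : E n → E n), IsBallAut n γ →
  ∃ M : (E n × ℂ) →ₗ[ℂ] (E n × ℂ), IsJ M ∧ ∀ z ∈ Bn n, γ z = frac M z

/-! ## Polynomial tools -/

/-- LOW (uses AUT, FRAC): lowest terms. -/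
def LowStmt : Prop := ∀ (n N : ℕ) (f : RatSphereMap n N) (γ : E n → E n) (ψ : E N → E N),
  1 ≤ n → IsBallAut n γ → IsBallAut N ψ → (∀ z ∈ Bn n, f.toFun (γ z) = ψ (f.toFun z)) →
  ∃ κ : ℝ, 0 < κ ∧ ∀ z ∈ Bn n, f.defect (γ z) / (1 - ‖γ z‖ ^ 2) ^ f.degree =
    κ * (f.defect z / (1 - ‖z‖ ^ 2) ^ f.degree)

/-- DIV: division by `‖z‖² - 1`. -/
def DivStmt : Prop := ∀ (n d : ℕ) (F : E n → ℂ), 1 ≤ n → 1 ≤ d → F ∈ HermPoly n d →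
  (∀ z, ‖z‖ = 1 → F z = 0) →
  ∃ Q ∈ HermPoly n (d - 1), ∀ z, F z = (((‖z‖ : ℝ) : ℂ) ^ 2 - 1) * Q z

/-- WIT (uses BOOST, INV, polarisation): polynomial maps with the same form. -/
def WitStmt : Prop := ∀ (n N : ℕ) (p₁ p₂ : Fin N → MvPolynomial (Fin n) ℂ)
  (q₁ q₂ : MvPolynomial (Fin n) ℂ),
  (∀ z : E n, ∑ i, ‖ev z (p₁ i)‖ ^ 2 - ‖ev z q₁‖ ^ 2 =
    ∑ i, ‖ev z (p₂ i)‖ ^ 2 - ‖ev z q₂‖ ^ 2) →
  ∑ i, ‖ev (0 : E n) (p₁ i)‖ ^ 2 < ‖ev (0 : E n) q₁‖ ^ 2 →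
  ∃ M : (E N × ℂ) →ₗ[ℂ] (E N × ℂ), IsJ M ∧
    ∀ z : E n, M (vec p₂ z, ev z q₂) = (vec p₁ z, ev z q₁)

/-- DEG: no finite source group in degree at most two. -/
def DegStmt : Prop := ∀ (n N : ℕ) (f : RatSphereMap n N)
  (G : Subgroup (Matrix.unitaryGroup (Fin n) ℂ)), 1 ≤ n → Finite G → HasSourceGroup f G →
  3 ≤ f.degree

/-! ## The generic stabiliser -/

/-- MASA -/
def MasaStmt : Prop := ∀ (n : ℕ) (G : Subgroup (Matrix.unitaryGroup (Fin n) ℂ)),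
  ∃ A : Matrix (Fin n) (Fin n) ℂ, A.IsHermitian ∧
    (∀ g ∈ G, Commute (g : Matrix (Fin n) (Fin n) ℂ) A) ∧
    ∀ T : Matrix (Fin n) (Fin n) ℂ, (∀ g ∈ G, Commute T (g : Matrix (Fin n) (Fin n) ℂ)) →
      Commute T A → ∀ X : Matrix (Fin n) (Fin n) ℂ, Commute X A → Commute T X

/-- GEN: the generic stabiliser is the pointwise stabiliser. -/
def GenStmt : Prop := ∀ (n : ℕ) (G : Subgroup (Matrix.unitaryGroup (Fin n) ℂ)) (W : Type)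
  [NormedAddCommGroup W] [InnerProductSpace ℝ W] [FiniteDimensional ℝ W]
  (π : Matrix (Fin n) (Fin n) ℂ → (W →L[ℝ] W)) (A : Matrix (Fin n) (Fin n) ℂ)
  (V : Submodule ℝ W),
  Finite G → A.IsHermitian → (∀ g ∈ G, Commute (g : Matrix (Fin n) (Fin n) ℂ) A) →
  (∀ T : Matrix (Fin n) (Fin n) ℂ, (∀ g ∈ G, Commute T (g : Matrix (Fin n) (Fin n) ℂ)) →
      Commute T A → ∀ X : Matrix (Fin n) (Fin n) ℂ, Commute X A → Commute T X) →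
  Continuous π → DifferentiableAt ℝ π 1 →
  (∀ u v : Matrix.unitaryGroup (Fin n) ℂ, π ((u * v : Matrix.unitaryGroup (Fin n) ℂ) :
    Matrix (Fin n) (Fin n) ℂ) = (π u).comp (π v)) →
  (∀ (u : Matrix.unitaryGroup (Fin n) ℂ) (w : W), ‖π u w‖ = ‖w‖) →
  (∀ v ∈ V, ∀ g ∈ G, π (g : Matrix (Fin n) (Fin n) ℂ) v = v) →
  (∀ u : Matrix.unitaryGroup (Fin n) ℂ, Commute (u : Matrix (Fin n) (Fin n) ℂ) A →
    (∀ v ∈ V, π u v = v) → u ∈ G) →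
  ∃ v ∈ V, ∀ u : Matrix.unitaryGroup (Fin n) ℂ, Commute (u : Matrix (Fin n) (Fin n) ℂ) A →
    π u v = v → u ∈ G

/-- GS (uses MASA, GEN) -/
def GsStmt : Prop := ∀ (n e : ℕ) (G : Subgroup (Matrix.unitaryGroup (Fin n) ℂ)), 1 ≤ n →
  Finite G → 2 ≤ e → Determines G e →
  ∃ R : E n → ℝ, (fun z => ((R z : ℝ) : ℂ)) ∈ HermPoly n e ∧
    (∀ g ∈ G, ∀ z, R (act g z) = R z) ∧ (∃ C : ℝ, ∀ z ∈ Bn n, |R z| ≤ C * ‖z‖ ^ 2) ∧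
    ∀ U : Matrix.unitaryGroup (Fin n) ℂ, (∀ z, R (act U z) = R z) → U ∈ G

/-! ## Assembly -/

/-- CON -/
def ConStmt : Prop := ∀ (n e : ℕ) (R : E n → ℝ), 1 ≤ n → 1 ≤ e →
  (fun z => ((R z : ℝ) : ℂ)) ∈ HermPoly n e →
  ∃ ε₀ : ℝ, 0 < ε₀ ∧ ∀ ε : ℝ, 0 < ε → ε < ε₀ → ∃ (N : ℕ) (f : RatSphereMap n N),
    f.degree = e + 1 ∧ ∃ c : ℝ, 0 < c ∧
      ∀ z, f.defect z = c * ((1 - ‖z‖ ^ 2) * (Q0 n e z + ε * R z))

/-- UP (uses GS, CON, LOW, WIT, FRAC) -/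
def UpStmt : Prop := ∀ (n e : ℕ) (G : Subgroup (Matrix.unitaryGroup (Fin n) ℂ)), 1 ≤ n →
  Finite G → 2 ≤ e → Determines G e →
  ∃ (N : ℕ) (f : RatSphereMap n N), f.degree = e + 1 ∧ HasSourceGroup f G

/-- LB (uses DIV, LOW, WIT, DEG) -/
def LbStmt : Prop := ∀ (n N : ℕ) (f : RatSphereMap n N)
  (G : Subgroup (Matrix.unitaryGroup (Fin n) ℂ)), 1 ≤ n → Finite G → HasSourceGroup f G →
  3 ≤ f.degree ∧ Determines G (f.degree - 1)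

/-- NOE -/
def NoeStmt : Prop := ∀ (n : ℕ) (G : Subgroup (Matrix.unitaryGroup (Fin n) ℂ)), Finite G →
  Determines G (Nat.card G)

/-- The final theorem. -/
def FinStmt : Prop := ∀ (n : ℕ) (G : Subgroup (Matrix.unitaryGroup (Fin n) ℂ)), 1 ≤ n →
  Finite G →
  (∃ e, 2 ≤ e ∧ e ≤ max 2 (Nat.card G) ∧ Determines G e) ∧
  IsLeast {k | ∃ (N : ℕ) (f : RatSphereMap n N), HasSourceGroup f G ∧ f.degree = k}
    (1 + sInf {e | 2 ≤ e ∧ Determines G e})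

end Pool.Agent.H24.RSM
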