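import Pool.Agent.H24.RSM.Src
import Pool.Agent.H24.RSM.Gs

/-!
# Rational sphere maps: the upper bound
-/

open MvPolynomial Metric Set

namespace Pool.Agent.H24.RSM

variable {n : ℕ}

lemma Q0_ge (e : ℕ) (he : 1 ≤ e) (z : E n) : Q0 n e 0 + ‖z‖ ^ 2 ≤ Q0 n e z := by
  unfold Q0
  simp only [norm_zero]
  have h1 : ∀ j ∈ Finset.range (e + 1), (2 : ℝ) ^ (e - j) * (1 + 0 ^ 2) ^ j +
      (if j = 1 then ‖z‖ ^ 2 else 0) ≤ 2 ^ (e - j) * (1 + ‖z‖ ^ 2) ^ j := by
    intro j _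
    have hx : (0 : ℝ) ≤ ‖z‖ ^ 2 := by positivity
    have h2 : (1 : ℝ) ≤ 2 ^ (e - j) := one_le_pow₀ (by norm_num)
    split_ifs with hj
    · subst hj
      simp only [pow_one]
      nlinarith
    · have h3 : (1 : ℝ) ≤ (1 + ‖z‖ ^ 2) ^ j := one_le_pow₀ (by linarith)
      have h4 : ((1 : ℝ) + 0 ^ 2) ^ j = 1 := by norm_num
      rw [h4, add_zero]
      nlinarith
  have h5 := Finset.sum_le_sum h1
  rw [Finset.sum_add_distrib, Finset.sum_ite_eq' (Finset.range (e + 1)) 1,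
    if_pos (Finset.mem_range.2 (by omega))] at h5
  exact h5

lemma Q0_zero_pos (e : ℕ) : 0 < Q0 n e 0 := by
  unfold Q0
  refine Finset.sum_pos (fun j _ => ?_) ⟨0, by simp⟩
  simp only [norm_zero]
  positivity

lemma Q0_act (e : ℕ) (U : Matrix.unitaryGroup (Fin n) ℂ) (z : E n) :
    Q0 n e (act U z) = Q0 n e z := by
  unfold Q0
  simp only [norm_act]

theorem up (hGs : GsStmt) (hCon : ConStmt) (hLow : LowStmt) : UpStmt := by
  intro n e G hn hfin he hG
  obtain ⟨R, hRmem, hRG, ⟨C, hC⟩, hRst⟩ := hGs n e G hn hfin he hG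
  obtain ⟨ε₀, hε₀, hcon⟩ := hCon n e R hn (by omega) hRmem
  set ε : ℝ := min (ε₀ / 2) (1 / (2 * (|C| + 1))) with hε
  have hεpos : 0 < ε := by
    rw [hε]
    exact lt_min (by positivity) (by positivity)
  have hεC : ε * |C| < 1 := by
    have h1 : ε ≤ 1 / (2 * (|C| + 1)) := min_le_right _ _
    have h2 : (0 : ℝ) ≤ |C| := abs_nonneg C
    calc ε * |C| ≤ 1 / (2 * (|C| + 1)) * |C| := by gcongr
      _ = |C| / (2 * (|C| + 1)) := by ring
      _ < 1 := by
        rw [div_lt_one (by positivity)]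
        linarith
  obtain ⟨N, f, hdeg, c, hc, hdef⟩ := hcon ε hεpos (lt_of_le_of_lt (min_le_left _ _) (by linarith))
  -- the invariant function
  set P : E n → ℝ := fun z => Q0 n e z + ε * R z with hP
  have hR0 : R 0 = 0 := by
    have := hC 0 Pool.Agent.H15.RSM.zero_mem
    simp at this
    exact this
  have hP0 : P 0 = Q0 n e 0 := by simp [hP, hR0]
  have hPpos : 0 < P 0 := by rw [hP0]; exact Q0_zero_pos e
  have hPgt : ∀ z ∈ Bn n, z ≠ 0 → P 0 < P z := by
    intro z hz hz0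
    rw [hP0]
    have h1 := Q0_ge e (by omega) z
    have h2 := hC z hz
    have hpos : 0 < ‖z‖ ^ 2 := by
      have := norm_pos_iff.2 hz0
      positivity
    have h3 : |R z| ≤ |C| * ‖z‖ ^ 2 := h2.trans (by gcongr; exact le_abs_self C)
    have h4 : -(|C| * ‖z‖ ^ 2) ≤ R z := by linarith [neg_abs_le (R z)]
    show Q0 n e 0 < Q0 n e z + ε * R z
    nlinarith
  refine ⟨N, f, hdeg, fun γ hγ => ⟨?_, ?_⟩⟩
  · rintro ⟨ψ, hψ, hfψ⟩
    obtain ⟨κ, hκ, hlow⟩ := hLow n N f γ ψ hn hγ hψ hfψ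
    rw [hdeg] at hlow
    -- rewrite in terms of P
    have hΨ : ∀ z ∈ Bn n, f.defect z / (1 - ‖z‖ ^ 2) ^ (e + 1) = c * (P z / (1 - ‖z‖ ^ 2) ^ e) := by
      intro z hz
      rw [Bn, mem_ball_zero_iff] at hz
      have h1 : 0 < 1 - ‖z‖ ^ 2 := by nlinarith [norm_nonneg z]
      rw [hdef z, show P z = Q0 n e z + ε * R z from rfl]
      field_simp
      ring
    have hΨge : ∀ z ∈ Bn n, P 0 ≤ P z / (1 - ‖z‖ ^ 2) ^ e := by
      intro z hz
      have hz' := hz
      rw [Bn, mem_ball_zero_iff] at hz'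
      have h1 : 0 < 1 - ‖z‖ ^ 2 := by nlinarith [norm_nonneg z]
      have h2 : (1 - ‖z‖ ^ 2) ^ e ≤ 1 := pow_le_one₀ h1.le (by nlinarith [norm_nonneg z])
      rw [le_div_iff₀ (by positivity)]
      rcases eq_or_ne z 0 with rfl | hz0
      · simp
      · nlinarith [hPgt z hz hz0]
    have hΨgt : ∀ z ∈ Bn n, z ≠ 0 → P 0 < P z / (1 - ‖z‖ ^ 2) ^ e := by
      intro z hz hz0
      have hz' := hz
      rw [Bn, mem_ball_zero_iff] at hz'
      have h1 : 0 < 1 - ‖z‖ ^ 2 := by nlinarith [norm_nonneg z]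
      have h2 : (1 - ‖z‖ ^ 2) ^ e ≤ 1 := pow_le_one₀ h1.le (by nlinarith [norm_nonneg z])
      rw [lt_div_iff₀ (by positivity)]
      nlinarith [hPgt z hz hz0]
    have hlow' : ∀ z ∈ Bn n, P (γ z) / (1 - ‖γ z‖ ^ 2) ^ e = κ * (P z / (1 - ‖z‖ ^ 2) ^ e) := by
      intro z hz
      have := hlow z hz
      rw [hΨ _ (hγ.2.1 hz), hΨ z hz] at this
      have h1 : c * (P (γ z) / (1 - ‖γ z‖ ^ 2) ^ e) = c * (κ * (P z / (1 - ‖z‖ ^ 2) ^ e)) := by
        rw [this]; ring
      exact mul_left_cancel₀ hc.ne' h1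
    have h00 : P 0 / (1 - ‖(0 : E n)‖ ^ 2) ^ e = P 0 := by simp
    obtain ⟨hd, hm, δ, hδd, hδm, hδγ, hγδ⟩ := hγ
    have hzero := Pool.Agent.H15.RSM.zero_mem (n := n)
    have hκ1 : κ ≤ 1 := by
      have h1 := hlow' (δ 0) (hδm hzero)
      rw [hγδ 0 hzero, h00] at h1
      have h2 := hΨge (δ 0) (hδm hzero)
      by_contra hlt
      push Not at hlt
      nlinarith
    have hγ0 : γ 0 = 0 := by
      by_contra hne
      have h1 := hlow' 0 hzero
      rw [h00] at h1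
      have h2 := hΨgt (γ 0) (hm hzero) hne
      nlinarith
    have hκeq : κ = 1 := by
      have h1 := hlow' 0 hzero
      rw [hγ0, h00] at h1
      have h2 : (κ - 1) * P 0 = 0 := by linarith
      rcases mul_eq_zero.1 h2 with h | h
      · linarith
      · exact absurd h hPpos.ne'
    obtain ⟨U, hU⟩ := fix_zero ⟨hd, hm, δ, hδd, hδm, hδγ, hγδ⟩ hγ0
    refine ⟨U, hRst U ?_, hU⟩
    have h5 : ∀ z ∈ Bn n, R (act U z) = R z := by
      intro z hz
      have h1 := hlow' z hz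
      rw [hU z hz, norm_act, hκeq, one_mul] at h1
      have hz' := hz
      rw [Bn, mem_ball_zero_iff] at hz'
      have h2 : 0 < 1 - ‖z‖ ^ 2 := by nlinarith [norm_nonneg z]
      have h3 : P (act U z) = P z := by
        rw [div_eq_div_iff (by positivity) (by positivity)] at h1
        exact mul_right_cancel₀ (by positivity) h1
      have h4 : Q0 n e (act U z) + ε * R (act U z) = Q0 n e z + ε * R z := h3
      rw [Q0_act] at h4
      exact mul_left_cancel₀ hεpos.ne' (by linarith)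
    have h6 := idp (Submodule.sub_mem _ (hermPoly_act hRmem U) hRmem) (fun z hz => by
      simp only [Pi.sub_apply, h5 z hz, sub_self])
    intro z
    have h7 := h6 z
    simp only [Pi.sub_apply] at h7
    exact_mod_cast sub_eq_zero.1 h7
  · rintro ⟨U, hUG, hU⟩
    obtain ⟨ψ, hψ, h⟩ := src f U (fun z => by
      rw [hdef, hdef, norm_act, Q0_act, hRG U hUG])
    exact ⟨ψ, hψ, fun z hz => by rw [hU z hz]; exact h z hz⟩

end Pool.Agent.H24.RSM
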