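import Pool.Agent.H24.RSM.HP

/-!
# Rational sphere maps: tensor powers
-/

open MvPolynomial
open scoped Matrix.Norms.L2Operator

namespace Pool.Agent.H24.RSM

variable {n : ℕ}

/-- letters: the constant letter and the coordinates -/
abbrev O (n : ℕ) := Option (Fin n)

/-- the vector `(1, z)` -/
def hat (z : E n) : O n → ℂ
  | none => 1
  | some i => z i

/-- the matrix `1 ⊕ X` -/
def hatM (X : Matrix (Fin n) (Fin n) ℂ) : Matrix (O n) (O n) ℂ
  | none, none => 1
  | none, some _ => 0
  | some _, none => 0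
  | some i, some j => X i j

lemma hatM_mul (X Y : Matrix (Fin n) (Fin n) ℂ) : hatM (X * Y) = hatM X * hatM Y := by
  ext a b
  rw [Matrix.mul_apply, Fintype.sum_option]
  rcases a with _ | a <;> rcases b with _ | b <;> simp [hatM, Matrix.mul_apply]

lemma hatM_one : hatM (1 : Matrix (Fin n) (Fin n) ℂ) = 1 := by
  ext a b
  rcases a with _ | a <;> rcases b with _ | b <;> simp [hatM, Matrix.one_apply]

lemma hatM_conj (X : Matrix (Fin n) (Fin n) ℂ) (a b : O n) :
    hatM (star X) a b = (starRingEnd ℂ) (hatM X b a) := by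
  rcases a with _ | a <;> rcases b with _ | b <;> simp [hatM, Matrix.star_apply]

lemma hatM_vec (U : Matrix.unitaryGroup (Fin n) ℂ) (z : E n) (a : O n) :
    ∑ b, hatM (U : Matrix (Fin n) (Fin n) ℂ) a b * hat z b = hat (act U z) a := by
  rw [Fintype.sum_option]
  rcases a with _ | a <;> simp [hatM, hat]

/-- the matrix of the action on pairs of letters -/
noncomputable def tau (X : Matrix (Fin n) (Fin n) ℂ) : Matrix (O n × O n) (O n × O n) ℂ :=
  Matrix.of fun p q => (starRingEnd ℂ) (hatM X p.1 q.1) * hatM X p.2 q.2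

lemma tau_mul (X Y : Matrix (Fin n) (Fin n) ℂ) : tau (X * Y) = tau X * tau Y := by
  ext p q
  rw [Matrix.mul_apply, Fintype.sum_prod_type]
  simp only [tau, Matrix.of_apply, hatM_mul, Matrix.mul_apply, map_sum, map_mul,
    Finset.sum_mul_sum]
  exact Finset.sum_congr rfl fun a _ => Finset.sum_congr rfl fun b _ => by ring

lemma tau_one : tau (1 : Matrix (Fin n) (Fin n) ℂ) = 1 := by
  ext p q
  simp only [tau, Matrix.of_apply, hatM_one, Matrix.one_apply, Prod.ext_iff]
  by_cases h1 : p.1 = q.1 <;> by_cases h2 : p.2 = q.2 <;> simp [h1, h2]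

lemma tau_star (X : Matrix (Fin n) (Fin n) ℂ) : tau (star X) = star (tau X) := by
  ext p q
  simp only [tau, Matrix.of_apply, hatM_conj, Matrix.star_apply, star_mul', Complex.star_def,
    Complex.conj_conj]

/-- tensor power of a matrix -/
noncomputable def tp {α : Type*} (e : ℕ) (M : Matrix α α ℂ) :
    Matrix (Fin e → α) (Fin e → α) ℂ := Matrix.of fun p q => ∏ i, M (p i) (q i)

lemma tp_mul {α : Type*} [Fintype α] (e : ℕ) (M N : Matrix α α ℂ) :
    tp e (M * N) = tp e M * tp e N := by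
  classical
  ext p q
  rw [Matrix.mul_apply]
  simp only [tp, Matrix.of_apply, Matrix.mul_apply]
  rw [Finset.prod_univ_sum, Fintype.piFinset_univ]
  exact Finset.sum_congr rfl fun r _ => Finset.prod_mul_distrib

lemma tp_one {α : Type*} [Fintype α] [DecidableEq α] (e : ℕ) :
    tp e (1 : Matrix α α ℂ) = 1 := by
  ext p q
  simp only [tp, Matrix.of_apply, Matrix.one_apply]
  by_cases h : p = q
  · subst h; simp
  · rw [if_neg h]
    obtain ⟨i, hi⟩ := Function.ne_iff.1 h
    exact Finset.prod_eq_zero (Finset.mem_univ i) (if_neg hi)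

lemma tp_star {α : Type*} (e : ℕ) (M : Matrix α α ℂ) : tp e (star M) = star (tp e M) := by
  ext p q
  simp only [tp, Matrix.of_apply, Matrix.star_apply, Complex.star_def, map_prod]

lemma tp_vec {α : Type*} [Fintype α] (e : ℕ) (M : Matrix α α ℂ) (x : α → ℂ) (p : Fin e → α) :
    ∑ q, tp e M p q * ∏ i, x (q i) = ∏ i, ∑ a, M (p i) a * x a := by
  classical
  rw [Finset.prod_univ_sum, Fintype.piFinset_univ]
  exact Finset.sum_congr rfl fun r _ => by rw [Finset.prod_mul_distrib]; rfl

/-- the representation space -/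
abbrev Wsp (n e : ℕ) := EuclideanSpace ℂ (Fin e → O n × O n)

/-- the matrix of the representation -/
noncomputable def Rmat (e : ℕ) (X : Matrix (Fin n) (Fin n) ℂ) :
    Matrix (Fin e → O n × O n) (Fin e → O n × O n) ℂ := tp e (tau X)

lemma Rmat_mul (e : ℕ) (X Y : Matrix (Fin n) (Fin n) ℂ) :
    Rmat e (X * Y) = Rmat e X * Rmat e Y := by rw [Rmat, tau_mul, tp_mul]; rfl

lemma Rmat_one (e : ℕ) : Rmat e (1 : Matrix (Fin n) (Fin n) ℂ) = 1 := by
  rw [Rmat, tau_one, tp_one]

lemma Rmat_star (e : ℕ) (X : Matrix (Fin n) (Fin n) ℂ) :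
    Rmat e (star X) = star (Rmat e X) := by rw [Rmat, tau_star, tp_star]; rfl

/-- the generating vector -/
noncomputable def Vv (e : ℕ) (z : E n) : Wsp n e :=
  WithLp.toLp 2 fun p => ∏ i, ((starRingEnd ℂ) (hat z (p i).1) * hat z (p i).2)

/-- the representation, complex linear version -/
noncomputable def rep (e : ℕ) (X : Matrix (Fin n) (Fin n) ℂ) : Wsp n e →L[ℂ] Wsp n e :=
  Matrix.toEuclideanCLM (𝕜 := ℂ) (Rmat e X)

lemma rep_mul (e : ℕ) (X Y : Matrix (Fin n) (Fin n) ℂ) :
    rep e (X * Y) = (rep e X).comp (rep e Y) := by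
  rw [rep, Rmat_mul, map_mul]; rfl

lemma rep_one (e : ℕ) : rep e (1 : Matrix (Fin n) (Fin n) ℂ) = ContinuousLinearMap.id ℂ _ := by
  rw [rep, Rmat_one, map_one]; rfl

lemma rep_star (e : ℕ) (X : Matrix (Fin n) (Fin n) ℂ) :
    rep e (star X) = ContinuousLinearMap.adjoint (rep e X) := by
  rw [rep, Rmat_star, map_star]; rfl

lemma rep_V (e : ℕ) (U : Matrix.unitaryGroup (Fin n) ℂ) (z : E n) :
    rep e (U : Matrix (Fin n) (Fin n) ℂ) (Vv e z) = Vv e (act U z) := by
  ext p
  show Matrix.mulVec (Rmat e (U : Matrix (Fin n) (Fin n) ℂ))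
    (fun p => ∏ i, ((starRingEnd ℂ) (hat z (p i).1) * hat z (p i).2)) p = _
  rw [Matrix.mulVec, dotProduct, Rmat]
  have := tp_vec e (tau (U : Matrix (Fin n) (Fin n) ℂ))
    (fun a : O n × O n => (starRingEnd ℂ) (hat z a.1) * hat z a.2) p
  rw [this]
  simp only [Vv]
  refine Finset.prod_congr rfl fun i _ => ?_
  rw [← hatM_vec, ← hatM_vec, map_sum, Finset.sum_mul_sum, Fintype.sum_prod_type]
  refine Finset.sum_congr rfl fun a _ => Finset.sum_congr rfl fun b _ => ?_
  simp only [tau, Matrix.of_apply, map_mul]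
  ring

lemma inner_rep (e : ℕ) (U : Matrix.unitaryGroup (Fin n) ℂ) (z : E n) (B : Wsp n e) :
    inner ℂ (Vv e z) (rep e (U : Matrix (Fin n) (Fin n) ℂ) B) = inner ℂ (Vv e (act U⁻¹ z)) B := by
  rw [← rep_V, ← ContinuousLinearMap.adjoint_inner_left, ← rep_star]
  rfl

lemma norm_rep (e : ℕ) (U : Matrix.unitaryGroup (Fin n) ℂ) (w : Wsp n e) :
    ‖rep e (U : Matrix (Fin n) (Fin n) ℂ) w‖ = ‖w‖ := by
  have h1 : inner ℂ (rep e (U : Matrix (Fin n) (Fin n) ℂ) w)
      (rep e (U : Matrix (Fin n) (Fin n) ℂ) w) = inner ℂ w w := by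
    rw [← ContinuousLinearMap.adjoint_inner_left, ← rep_star]
    have : rep e (star (U : Matrix (Fin n) (Fin n) ℂ)) (rep e (U : Matrix (Fin n) (Fin n) ℂ) w) =
        w := by
      rw [← ContinuousLinearMap.comp_apply, ← rep_mul, Matrix.UnitaryGroup.star_mul_self, rep_one]
      rfl
    rw [this]
  rw [inner_self_eq_norm_sq_to_K, inner_self_eq_norm_sq_to_K] at h1
  have h3 : ‖rep e (U : Matrix (Fin n) (Fin n) ℂ) w‖ ^ 2 = ‖w‖ ^ 2 := by exact_mod_cast h1
  exact (pow_left_inj₀ (norm_nonneg _) (norm_nonneg _) two_ne_zero).1 h3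

/-- the representation as real operators -/
noncomputable def repR (e : ℕ) (X : Matrix (Fin n) (Fin n) ℂ) : Wsp n e →L[ℝ] Wsp n e :=
  (rep e X).restrictScalars ℝ

@[simp] lemma repR_apply (e : ℕ) (X : Matrix (Fin n) (Fin n) ℂ) (w : Wsp n e) :
    repR e X w = rep e X w := rfl

/-- real linear map from families of entries to operators -/
noncomputable def opR (κ : Type) [Fintype κ] [DecidableEq κ] :
    (κ → κ → ℂ) →ₗ[ℝ] (EuclideanSpace ℂ κ →L[ℝ] EuclideanSpace ℂ κ) where
  toFun M := (Matrix.toEuclideanCLM (𝕜 := ℂ) (Matrix.of M)).restrictScalars ℝ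
  map_add' M N := by
    ext w : 1
    show Matrix.toEuclideanCLM (𝕜 := ℂ) (Matrix.of (M + N)) w = _
    rw [show (Matrix.of (M + N) : Matrix κ κ ℂ) = Matrix.of M + Matrix.of N from rfl, map_add]
    rfl
  map_smul' a M := by
    ext w : 1
    show Matrix.toEuclideanCLM (𝕜 := ℂ) (Matrix.of (a • M)) w = _
    rw [show (Matrix.of (a • M) : Matrix κ κ ℂ) = (a : ℂ) • Matrix.of M from by
      ext i j; simp, map_smul]
    ext i
    simp

lemma repR_eq (e : ℕ) (X : Matrix (Fin n) (Fin n) ℂ) :
    repR e X = opR (Fin e → O n × O n) (Rmat e X) := rfl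

lemma differentiable_entry (a b : Fin n) :
    Differentiable ℝ fun X : Matrix (Fin n) (Fin n) ℂ => X a b :=
  (LinearMap.toContinuousLinearMap
    ({ toFun := fun X => X a b, map_add' := fun _ _ => rfl, map_smul' := fun _ _ => rfl } :
      Matrix (Fin n) (Fin n) ℂ →ₗ[ℝ] ℂ)).differentiable

lemma differentiable_hatM (a b : O n) :
    Differentiable ℝ fun X : Matrix (Fin n) (Fin n) ℂ => hatM X a b := by
  rcases a with _ | a <;> rcases b with _ | b
  · exact differentiable_const _
  · exact differentiable_const _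
  · exact differentiable_const _
  · exact differentiable_entry a b

lemma differentiable_repR (e : ℕ) :
    Differentiable ℝ (repR e : Matrix (Fin n) (Fin n) ℂ → (Wsp n e →L[ℝ] Wsp n e)) := by
  have h1 : Differentiable ℝ (fun X : Matrix (Fin n) (Fin n) ℂ =>
      (fun p q => Rmat e X p q : (Fin e → O n × O n) → (Fin e → O n × O n) → ℂ)) := by
    rw [differentiable_pi]
    intro p
    rw [differentiable_pi]
    intro q
    show Differentiable ℝ fun X : Matrix (Fin n) (Fin n) ℂ =>
      ∏ i, ((starRingEnd ℂ) (hatM X (p i).1 (q i).1) * hatM X (p i).2 (q i).2)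
    have h2 : ∀ i ∈ (Finset.univ : Finset (Fin e)), Differentiable ℝ
        (fun X : Matrix (Fin n) (Fin n) ℂ =>
          (starRingEnd ℂ) (hatM X (p i).1 (q i).1) * hatM X (p i).2 (q i).2) := by
      intro i _
      refine Differentiable.mul ?_ (differentiable_hatM _ _)
      exact Complex.conjCLE.differentiable.comp (differentiable_hatM _ _)
    have h3 : ∀ s : Finset (Fin e), Differentiable ℝ
        (fun X : Matrix (Fin n) (Fin n) ℂ => ∏ i ∈ s,
          ((starRingEnd ℂ) (hatM X (p i).1 (q i).1) * hatM X (p i).2 (q i).2)) := by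
      classical
      intro s
      induction s using Finset.induction_on with
      | empty => simp
      | insert a s ha ih =>
        simp only [Finset.prod_insert ha]
        exact (h2 a (Finset.mem_univ a)).mul ih
    exact h3 _
  exact (LinearMap.toContinuousLinearMap (opR (Fin e → O n × O n))).differentiable.comp h1

end Pool.Agent.H24.RSM
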